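import Mathlib

/-!
# Families with `r`-fold qualitatively independent pairs: limits (helper60)
-/

set_option autoImplicit false

open Finset Filter Topology

namespace Pool.Agent.K9h60.QI

lemma half_lim : Tendsto (fun n : ℕ => ((n / 2 : ℕ) : ℝ) / n) atTop (𝓝 (1 / 2)) := by
  have h1 : Tendsto (fun n : ℕ => (1 / 2 : ℝ) - 1 / n) atTop (𝓝 (1 / 2 - 0)) :=
    tendsto_const_nhds.sub tendsto_one_div_atTop_nhds_zero_nat
  rw [sub_zero] at h1
  refine tendsto_of_tendsto_of_tendsto_of_le_of_le' h1 tendsto_const_nhds ?_ ?_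
  · filter_upwards [eventually_gt_atTop 0] with n hn
    have hn' : (0 : ℝ) < n := by exact_mod_cast hn
    have h2 : n ≤ 2 * (n / 2) + 1 := by omega
    have h3 : (n : ℝ) ≤ 2 * ((n / 2 : ℕ) : ℝ) + 1 := by exact_mod_cast h2
    rw [le_div_iff₀ hn', sub_mul, one_div_mul_cancel hn'.ne']
    linarith
  · filter_upwards [eventually_gt_atTop 0] with n hn
    have hn' : (0 : ℝ) < n := by exact_mod_cast hn
    have h2 : 2 * (n / 2) ≤ n := by omega
    have h3 : 2 * ((n / 2 : ℕ) : ℝ) ≤ n := by exact_mod_cast h2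
    rw [div_le_iff₀ hn']
    linarith

lemma const_lim (c : ℝ) : Tendsto (fun n : ℕ => c / (n : ℝ)) atTop (𝓝 0) :=
  tendsto_const_div_atTop_nhds_zero_nat c

/-- moving the lower index by a constant -/
lemma shift_lim (j : ℕ) : Tendsto (fun n : ℕ => (n.choose (n / 2 - j) : ℝ) / n.choose (n / 2)) atTop (𝓝 1) := by
  induction j with
  | zero =>
    refine Tendsto.congr' ?_ tendsto_const_nhds
    filter_upwards with n
    have : (n.choose (n / 2) : ℝ) ≠ 0 := by
      exact_mod_cast (Nat.choose_pos (Nat.div_le_self _ _)).ne'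
    rw [Nat.sub_zero, div_self this]
  | succ j ih =>
    have h1 : Tendsto (fun n : ℕ => (((n / 2 : ℕ) : ℝ) / n - j / n) /
        (1 - ((n / 2 : ℕ) : ℝ) / n + (j + 1 : ℝ) / n)) atTop (𝓝 ((1 / 2 - 0) / (1 - 1 / 2 + 0))) :=
      (half_lim.sub (const_lim _)).div ((tendsto_const_nhds.sub half_lim).add (const_lim _)) (by norm_num)
    have h2 := ih.mul h1
    have e : (1 : ℝ) * ((1 / 2 - 0) / (1 - 1 / 2 + 0)) = 1 := by norm_num
    rw [e] at h2
    refine h2.congr' ?_
    filter_upwards [eventually_gt_atTop (2 * j + 4)] with n hn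
    obtain ⟨K, hK⟩ : ∃ K, n / 2 - j = K + 1 := ⟨n / 2 - j - 1, by omega⟩
    have hK' : n / 2 - (j + 1) = K := by omega
    rw [hK, hK']
    have h3 := Nat.choose_succ_right_eq n K
    have h4 : (n.choose (K + 1) : ℝ) * (K + 1) = n.choose K * ((n : ℝ) - K) := by
      have := congrArg (Nat.cast : ℕ → ℝ) h3
      push_cast [Nat.cast_sub (show K ≤ n by omega)] at this
      exact this
    have hn0 : (0 : ℝ) < n := by
      have : 0 < n := by omega
      exact_mod_cast this
    have hh : ((n / 2 : ℕ) : ℝ) = K + 1 + j := by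
      have : n / 2 = K + 1 + j := by omega
      rw [this]
      push_cast
      ring
    have h5 : (0 : ℝ) < n - K := by
      have : K + 1 ≤ n := by omega
      have : (K : ℝ) + 1 ≤ n := by exact_mod_cast this
      linarith
    have h6 : (0 : ℝ) < n.choose (n / 2) := by exact_mod_cast Nat.choose_pos (Nat.div_le_self _ _)
    have e1 : (((n / 2 : ℕ) : ℝ) / n - j / n) / (1 - ((n / 2 : ℕ) : ℝ) / n + (j + 1 : ℝ) / n) =
        (K + 1) / (n - K) := by
      rw [hh]
      rw [div_eq_div_iff _ h5.ne']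
      · field_simp
        ring
      · have : (1 - ((K : ℝ) + 1 + j) / n + (j + 1) / n) = (n - K) / n := by
          field_simp
          ring
        rw [this]
        positivity
    rw [e1, div_mul_div_comm, h4, mul_comm ((n.choose (n / 2) : ℝ)), mul_comm (n.choose K : ℝ),
      mul_div_mul_left _ _ h5.ne']

/-- removing `s` points -/
lemma remove_lim (s j : ℕ) :
    Tendsto (fun n : ℕ => ((n - s).choose (n / 2 - j) : ℝ) / n.choose (n / 2)) atTop (𝓝 (1 / 2 ^ s)) := by
  induction s with
  | zero => simpa using shift_lim j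
  | succ s ih =>
    have h1 : Tendsto (fun n : ℕ => (1 - ((n / 2 : ℕ) : ℝ) / n + ((j : ℝ) - s) / n) / (1 - s / n)) atTop
        (𝓝 ((1 - 1 / 2 + 0) / (1 - 0))) :=
      ((tendsto_const_nhds.sub half_lim).add (const_lim _)).div (tendsto_const_nhds.sub (const_lim _))
        (by norm_num)
    have h2 := ih.mul h1
    have e : (1 / 2 ^ s : ℝ) * ((1 - 1 / 2 + 0) / (1 - 0)) = 1 / 2 ^ (s + 1) := by
      rw [pow_succ]
      norm_num
      ring
    rw [e] at h2
    refine h2.congr' ?_
    filter_upwards [eventually_gt_atTop (2 * j + 4 + 2 * s)] with n hn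
    obtain ⟨N, hN⟩ : ∃ N, n - s = N + 1 := ⟨n - s - 1, by omega⟩
    have hN' : n - (s + 1) = N := by omega
    rw [hN, hN']
    set K := n / 2 - j with hK
    have h3 := Nat.choose_mul_succ_eq N K
    have h4 : (N.choose K : ℝ) * (N + 1) = (N + 1).choose K * ((N : ℝ) + 1 - K) := by
      have := congrArg (Nat.cast : ℕ → ℝ) h3
      push_cast [Nat.cast_sub (show K ≤ N + 1 by omega)] at this
      exact this
    have hn0 : (0 : ℝ) < n := by
      have : 0 < n := by omega
      exact_mod_cast this
    have hh : ((n / 2 : ℕ) : ℝ) = K + j := by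
      have : n / 2 = K + j := by omega
      rw [this]
      push_cast
      ring
    have hnN : (n : ℝ) = N + 1 + s := by
      have : n = N + 1 + s := by omega
      rw [this]
      push_cast
      ring
    have h5 : (0 : ℝ) < (N : ℝ) + 1 := by positivity
    have h6 : (0 : ℝ) < n.choose (n / 2) := by exact_mod_cast Nat.choose_pos (Nat.div_le_self _ _)
    have e1 : (1 - ((n / 2 : ℕ) : ℝ) / n + ((j : ℝ) - s) / n) / (1 - s / n) = ((N : ℝ) + 1 - K) / (N + 1) := by
      rw [hh]
      have a1 : (1 - ((K : ℝ) + j) / n + ((j : ℝ) - s) / n) = ((N : ℝ) + 1 - K) / n := by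
        field_simp
        rw [hnN]
        ring
      have a2 : (1 - (s : ℝ) / n) = (N + 1) / n := by
        field_simp
        rw [hnN]
        ring
      rw [a1, a2, div_div_div_cancel_right₀ hn0.ne']
    rw [e1, div_mul_div_comm, ← h4, mul_div_mul_right _ _ h5.ne']

end Pool.Agent.K9h60.QI
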