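import Mathlib

/-!
# Families with `r`-fold qualitatively independent pairs: the binomial tail (helper60)
-/

set_option autoImplicit false

open Finset Filter Topology

namespace Pool.Agent.K9h60.QI

lemma cb_bound (u : ℕ) : (Nat.centralBinom u) ^ 2 * (2 * u + 1) ≤ 16 ^ u := by
  induction u with
  | zero => simp
  | succ u ih =>
    have h := Nat.succ_mul_centralBinom_succ u
    have h1 : (u + 1) ^ 2 * ((Nat.centralBinom (u + 1)) ^ 2 * (2 * (u + 1) + 1)) ≤
        (u + 1) ^ 2 * 16 ^ (u + 1) := by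
      calc (u + 1) ^ 2 * ((Nat.centralBinom (u + 1)) ^ 2 * (2 * (u + 1) + 1))
          = ((u + 1) * Nat.centralBinom (u + 1)) ^ 2 * (2 * (u + 1) + 1) := by ring
        _ = 4 * ((2 * u + 1) * (2 * u + 3)) * ((Nat.centralBinom u) ^ 2 * (2 * u + 1)) := by
            rw [h]; ring
        _ ≤ 4 * ((2 * u + 1) * (2 * u + 3)) * 16 ^ u := Nat.mul_le_mul_left _ ih
        _ ≤ 4 * (4 * (u + 1) ^ 2) * 16 ^ u := by
            apply Nat.mul_le_mul_right
            apply Nat.mul_le_mul_left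
            nlinarith
        _ = (u + 1) ^ 2 * 16 ^ (u + 1) := by ring
    exact Nat.le_of_mul_le_mul_left h1 (by positivity)

/-- the tail of the binomial coefficients -/
def tl (r u : ℕ) : ℕ := ∑ j ∈ range (2 * u + 1), if 2 * u + r ≤ 2 * j then (2 * u).choose j else 0

lemma tl_half (r u : ℕ) : 4 ^ u ≤ 2 * tl r u + 2 * r * Nat.centralBinom u := by
  have h1 : (4 : ℕ) ^ u = ∑ j ∈ range (2 * u + 1), (2 * u).choose j := by
    rw [Nat.sum_range_choose, pow_mul]
    norm_num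
  have h2 : ∑ j ∈ range (2 * u + 1), (if 2 * j + r ≤ 2 * u then (2 * u).choose j else 0) = tl r u := by
    unfold tl
    rw [← sum_range_reflect]
    apply sum_congr rfl
    intro j hj
    rw [mem_range] at hj
    have e1 : (2 * (2 * u + 1 - 1 - j) + r ≤ 2 * u) ↔ (2 * u + r ≤ 2 * j) := by omega
    have e2 : (2 * u).choose (2 * u + 1 - 1 - j) = (2 * u).choose j := by
      rw [show 2 * u + 1 - 1 - j = 2 * u - j by omega, Nat.choose_symm (by omega)]
    rw [if_congr e1 e2 rfl]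
  have h3 : ∀ j ∈ range (2 * u + 1), (2 * u).choose j ≤
      (if 2 * u + r ≤ 2 * j then (2 * u).choose j else 0) +
      (if 2 * j + r ≤ 2 * u then (2 * u).choose j else 0) +
      (if j ∈ Ico (u - r) (u + r) then Nat.centralBinom u else 0) := by
    intro j hj
    by_cases a1 : 2 * u + r ≤ 2 * j
    · rw [if_pos a1]; omega
    by_cases a2 : 2 * j + r ≤ 2 * u
    · rw [if_pos a2]; omega
    have a3 : j ∈ Ico (u - r) (u + r) := by
      rw [mem_Ico]; omega
    rw [if_neg a1, if_neg a2, if_pos a3, zero_add, zero_add]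
    exact Nat.choose_le_centralBinom j u
  rw [h1]
  refine (sum_le_sum h3).trans ?_
  rw [sum_add_distrib, sum_add_distrib, h2]
  change tl r u + tl r u + _ ≤ _
  have h4 : ∑ j ∈ range (2 * u + 1), (if j ∈ Ico (u - r) (u + r) then Nat.centralBinom u else 0) ≤
      2 * r * Nat.centralBinom u := by
    rw [← sum_filter, sum_const, smul_eq_mul]
    apply Nat.mul_le_mul_right
    calc ((range (2 * u + 1)).filter fun j => j ∈ Ico (u - r) (u + r)).card
        ≤ (Ico (u - r) (u + r)).card := card_le_card fun x hx => (mem_filter.1 hx).2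
      _ ≤ 2 * r := by rw [Nat.card_Ico]; omega
  omega

lemma tl_lim (r : ℕ) {ε : ℝ} (hε : 0 < ε) : ∃ u : ℕ, (1 / 2 - ε) ≤ (tl r u : ℝ) / 4 ^ u := by
  obtain ⟨u, hu⟩ := exists_nat_gt ((r / ε) ^ 2)
  refine ⟨u, ?_⟩
  rw [le_div_iff₀ (by positivity)]
  have h1 : (4 : ℝ) ^ u ≤ 2 * tl r u + 2 * r * Nat.centralBinom u := by exact_mod_cast tl_half r u
  have h2 : (Nat.centralBinom u : ℝ) ^ 2 * (2 * u + 1) ≤ 16 ^ u := by exact_mod_cast cb_bound u
  have h3 : (r : ℝ) * Nat.centralBinom u ≤ ε * 4 ^ u := by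
    have a1 : (r : ℝ) ^ 2 ≤ ε ^ 2 * (2 * u + 1) := by
      rw [div_pow, div_lt_iff₀ (by positivity)] at hu
      nlinarith [sq_nonneg ε, (Nat.cast_nonneg u : (0 : ℝ) ≤ u), pow_pos hε 2]
    have a2 : ((r : ℝ) * Nat.centralBinom u) ^ 2 ≤ (ε * 4 ^ u) ^ 2 := by
      calc ((r : ℝ) * Nat.centralBinom u) ^ 2 = (r : ℝ) ^ 2 * (Nat.centralBinom u : ℝ) ^ 2 := by ring
        _ ≤ ε ^ 2 * (2 * u + 1) * (Nat.centralBinom u : ℝ) ^ 2 := by gcongr
        _ = ε ^ 2 * ((Nat.centralBinom u : ℝ) ^ 2 * (2 * u + 1)) := by ring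
        _ ≤ ε ^ 2 * 16 ^ u := by gcongr
        _ = (ε * 4 ^ u) ^ 2 := by
            rw [mul_pow, ← pow_mul, mul_comm u 2, pow_mul]
            norm_num
    exact abs_le_of_sq_le_sq' a2 (by positivity) |>.2
  nlinarith [h1, h3]

end Pool.Agent.K9h60.QI
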