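import Pool.Agent.K9h60.QI.Lower

/-!
# Families with `r`-fold qualitatively independent pairs: the denser construction (helper60)
-/

set_option autoImplicit false

open Finset Polynomial

namespace Pool.Agent.K9h60.QI

variable {n : ℕ}

lemma sep0 (q : ℕ) [Fact q.Prime] {r k : ℕ} (hq : n ≤ q) (hk : r ≤ k) {T T' : Finset (Fin n)}
    (hc : T.card = k) (hc' : T'.card = k) (hne : T ≠ T')
    (hcoef : ∀ j, k - r < j → (fp q T).coeff j = (fp q T').coeff j) : r ≤ (T \ T').card := by
  have hH : ∀ S : Finset (Fin n), S ⊆ Hi n 0 := fun S x _ => by simp [Hi]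
  have hg : fp q T - fp q T' ≠ 0 := by
    intro h0
    rw [sub_eq_zero] at h0
    obtain ⟨x, hx, hx'⟩ : ∃ x ∈ T, x ∉ T' := by
      by_contra hcon
      push Not at hcon
      exact hne (eq_of_subset_of_card_le hcon (by rw [hc, hc']))
    have e1 : (fp q T).eval ((x : ℕ) : ZMod q) = 0 := by
      unfold fp
      rw [eval_prod]
      exact prod_eq_zero hx (by simp)
    have e2 : (fp q T').eval ((x : ℕ) : ZMod q) ≠ 0 := by
      unfold fp
      rw [eval_prod, prod_ne_zero_iff]
      intro y hy h
      rw [eval_sub, eval_X, eval_C, sub_eq_zero] at h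
      have := cast_inj (r := 0) (by omega) (hH T hx) (hH T' hy) h
      exact hx' (this ▸ hy)
    rw [h0] at e1
    exact e2 e1
  have hdeg : (fp q T - fp q T').natDegree ≤ k - r := by
    rw [natDegree_le_iff_coeff_eq_zero]
    intro j hj
    rw [coeff_sub, hcoef j hj, sub_self]
  have hdvd : fp q (T ∩ T') ∣ fp q T - fp q T' := by
    have d1 : fp q (T ∩ T') ∣ fp q T := prod_dvd_prod_of_subset _ _ _ inter_subset_left
    have d2 : fp q (T ∩ T') ∣ fp q T' := prod_dvd_prod_of_subset _ _ _ inter_subset_right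
    exact dvd_sub d1 d2
  have h1 := natDegree_le_of_dvd hdvd hg
  rw [fp_deg] at h1
  have h2 := card_sdiff_add_card_inter T T'
  omega

/-- a set of sets of size `n/2` with a majority in `S` gives a family -/
lemma fam_of2 {r u : ℕ} (hun : 2 * u ≤ n) (𝒯 : Finset (Finset (Fin n)))
    (hT : ∀ T ∈ 𝒯, T.card = n / 2 ∧ 2 * u + r ≤ 2 * (T ∩ Lo n (2 * u)).card)
    (hd : ∀ T ∈ 𝒯, ∀ T' ∈ 𝒯, T ≠ T' → r ≤ (T \ T').card) : Fam r n 𝒯.card := by
  classical
  let e := 𝒯.equivFin.symm
  refine ⟨fun i => (e i).1, fun i j hij => ?_⟩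
  have hne : (e i).1 ≠ (e j).1 := fun h => hij (e.injective (Subtype.ext h))
  obtain ⟨hi1, hi2⟩ := hT _ (e i).2
  obtain ⟨hj1, hj2⟩ := hT _ (e j).2
  have hTT : r ≤ ((e i).1 \ (e j).1).card := hd _ (e i).2 _ (e j).2 hne
  have hTT' : r ≤ ((e j).1 \ (e i).1).card := hd _ (e j).2 _ (e i).2 hne.symm
  set T := (e i).1
  set T' := (e j).1
  set S := Lo n (2 * u) with hS
  have hSc : S.card = 2 * u := card_Lo hun
  have hint : r ≤ (T ∩ T').card := by
    have h1 := card_union_add_card_inter (T ∩ S) (T' ∩ S)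
    have h2 : ((T ∩ S) ∪ (T' ∩ S)).card ≤ S.card :=
      card_le_card (union_subset inter_subset_right inter_subset_right)
    have h3 : ((T ∩ S) ∩ (T' ∩ S)).card ≤ (T ∩ T').card :=
      card_le_card (inter_subset_inter inter_subset_left inter_subset_left)
    omega
  refine ⟨hint, ?_, ?_, ?_⟩
  · rw [← sdiff_eq_inter_compl]
    exact hTT
  · rw [inter_comm, ← sdiff_eq_inter_compl]
    exact hTT'
  · change r ≤ (Tᶜ ∩ T'ᶜ).card
    rw [← compl_union, card_compl, Fintype.card_fin]
    have h1 := card_union_add_card_inter T T'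
    omega

/-- the number of the sets of size `h` with a majority in `S` -/
lemma count_ge {r u h : ℕ} (hun : 2 * u ≤ n) (huh : 2 * u ≤ h) :
    ∑ j ∈ range (2 * u + 1), (if 2 * u + r ≤ 2 * j then (2 * u).choose j * (n - 2 * u).choose (h - j) else 0) ≤
      (((univ : Finset (Fin n)).powersetCard h).filter
        fun T => 2 * u + r ≤ 2 * (T ∩ Lo n (2 * u)).card).card := by
  classical
  set S := Lo n (2 * u) with hS
  have hSc : S.card = 2 * u := card_Lo hun
  rw [card_eq_sum_card_fiberwise (f := fun T => (T ∩ S).card) (t := range (2 * u + 1))]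
  · apply sum_le_sum
    intro j hj
    rw [mem_range] at hj
    by_cases hj2 : 2 * u + r ≤ 2 * j
    · rw [if_pos hj2]
      have hc : ((S.powersetCard j) ×ˢ (Sᶜ.powersetCard (h - j))).card =
          (2 * u).choose j * (n - 2 * u).choose (h - j) := by
        rw [card_product, card_powersetCard, card_powersetCard, card_compl, Fintype.card_fin, hSc]
      rw [← hc]
      apply card_le_card_of_injOn (fun p => p.1 ∪ p.2)
      · rintro ⟨P, Q⟩ hp
        simp only [coe_product, Set.mem_prod, mem_coe, mem_powersetCard] at hp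
        obtain ⟨⟨h1, h2⟩, h3, h4⟩ := hp
        have hdis : Disjoint P Q := disjoint_left.2 fun x hx hx' => mem_compl.1 (h3 hx') (h1 hx)
        have hI : (P ∪ Q) ∩ S = P := by
          ext x
          have a1 := @h1 x
          have a2 : x ∈ Q → x ∉ S := fun h => mem_compl.1 (h3 h)
          simp only [mem_inter, mem_union]
          tauto
        rw [mem_coe, mem_filter, mem_filter, mem_powersetCard]
        dsimp only
        refine ⟨⟨⟨subset_univ _, ?_⟩, ?_⟩, ?_⟩
        · rw [card_union_of_disjoint hdis, h2, h4]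
          omega
        · rw [hI, h2]
          exact hj2
        · rw [hI, h2]
      · rintro ⟨P, Q⟩ hp ⟨P', Q'⟩ hp' heq
        simp only [coe_product, Set.mem_prod, mem_coe, mem_powersetCard] at hp hp'
        obtain ⟨⟨h1, h2⟩, h3, h4⟩ := hp
        obtain ⟨⟨h1', h2'⟩, h3', h4'⟩ := hp'
        have h5 := Finset.ext_iff.1 heq
        simp only [mem_union] at h5
        rw [Prod.mk.injEq]
        constructor
        · ext x
          have a1 := @h1 x
          have a2 : x ∈ Q → x ∉ S := fun h => mem_compl.1 (h3 h)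
          have a3 := @h1' x
          have a4 : x ∈ Q' → x ∉ S := fun h => mem_compl.1 (h3' h)
          have := h5 x
          tauto
        · ext x
          have a1 := @h1 x
          have a2 : x ∈ Q → x ∉ S := fun h => mem_compl.1 (h3 h)
          have a3 := @h1' x
          have a4 : x ∈ Q' → x ∉ S := fun h => mem_compl.1 (h3' h)
          have := h5 x
          tauto
    · rw [if_neg hj2]
      exact Nat.zero_le _
  · intro T _
    rw [mem_coe, mem_range]
    have := card_le_card (inter_subset_right : T ∩ S ⊆ S)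
    dsimp only
    omega

/-- the lower bound: some family has at least the average number of sets -/
theorem lower2 {r q M u : ℕ} [Fact q.Prime] (hr : 1 ≤ r) (hn : 2 * r ≤ n) (hu : 4 * u ≤ n) (hq : n ≤ q)
    (hM : ∀ m, Fam r n m → m ≤ M) :
    ∑ j ∈ range (2 * u + 1), (if 2 * u + r ≤ 2 * j then (2 * u).choose j *
      (n - 2 * u).choose (n / 2 - j) else 0) ≤ q ^ (r - 1) * M := by
  classical
  refine (count_ge (n := n) (r := r) (u := u) (h := n / 2) (by omega) (by omega)).trans ?_
  set 𝒯 := ((univ : Finset (Fin n)).powersetCard (n / 2)).filter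
        fun T => 2 * u + r ≤ 2 * (T ∩ Lo n (2 * u)).card with h𝒯
  rw [card_eq_sum_card_fiberwise (f := lc q r (n / 2)) (t := univ) fun _ _ => mem_coe.2 (mem_univ _)]
  refine (sum_le_sum (g := fun _ => M) fun κ _ => ?_).trans (le_of_eq ?_)
  · apply hM
    apply fam_of2 (u := u) (by omega)
    · intro T hT
      obtain ⟨h1, h2⟩ := mem_filter.1 (mem_filter.1 hT).1
      exact ⟨(mem_powersetCard.1 h1).2, h2⟩
    · intro T hT T' hT' hne
      obtain ⟨h2, h3⟩ := mem_filter.1 hT
      obtain ⟨h4, h5⟩ := mem_filter.1 hT'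
      have h6 := (mem_powersetCard.1 (mem_filter.1 h2).1).2
      have h7 := (mem_powersetCard.1 (mem_filter.1 h4).1).2
      have hrk : r ≤ n / 2 := by omega
      exact sep0 q hq hrk h6 h7 hne (lc_coef q hr hrk h6 h7 (h3.trans h5.symm))
  · rw [sum_const, card_univ, Fintype.card_fun, ZMod.card, Fintype.card_fin, smul_eq_mul]

end Pool.Agent.K9h60.QI
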