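import Pool.Agent.K9h60.QI.Upper

/-!
# Families with `r`-fold qualitatively independent pairs: the sharper upper bound (helper60)
-/

set_option autoImplicit false

open Finset

namespace Pool.Agent.K9h60.QI

/-- the weight of a set of size `k` -/
def wt (n a b k : ℕ) : ℚ := (k.choose a : ℚ) * ((n - k).choose b : ℚ) / (n.choose (k - a + b) : ℚ)

lemma num_ineq {a : ℕ} (K M : ℚ) (ha : (2 * a : ℚ) ≤ K) (ha' : (2 * a : ℚ) ≤ M) (_ha0 : (0 : ℚ) ≤ a)
    (h : K ≤ M) : K ^ 2 * (M - a) ≤ (K - a) * M ^ 2 := by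
  have h1 : 0 ≤ (M - K) * (K * M - a * (K + M)) := by
    apply mul_nonneg (by linarith)
    nlinarith [mul_nonneg (sub_nonneg.2 ha) (by linarith : (0 : ℚ) ≤ M),
      mul_nonneg (sub_nonneg.2 ha') (by linarith : (0 : ℚ) ≤ K)]
  nlinarith

lemma num_ineq' {a : ℕ} (K M : ℚ) (ha : (2 * a : ℚ) ≤ K) (ha' : (2 * a : ℚ) ≤ M) (_ha0 : (0 : ℚ) ≤ a)
    (h : K ≤ M) : K * (K - 1) * (M - a) ≤ (K - a) * (M * (M - 1)) := by
  have h1 : 0 ≤ (M - K) * (K * M - a * (K + M) + a) := by
    apply mul_nonneg (by linarith)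
    nlinarith [mul_nonneg (sub_nonneg.2 ha) (by linarith : (0 : ℚ) ≤ M),
      mul_nonneg (sub_nonneg.2 ha') (by linarith : (0 : ℚ) ≤ K)]
  nlinarith

lemma wt_step {n a b k : ℕ} (hba : b ≤ a) (hab : a ≤ b + 1) (hk : 2 * a ≤ k) (hn : k + 1 + 2 * a ≤ n) :
    (2 * k + 1 ≤ n → wt n a b (k + 1) ≤ wt n a b k) ∧
      (n ≤ 2 * k → wt n a b k ≤ wt n a b (k + 1)) := by
  obtain ⟨m, rfl⟩ : ∃ m, n = k + m + 1 := ⟨n - k - 1, by omega⟩
  set c := k - a + b with hc
  have e1 : ((k.choose a : ℕ) : ℚ) * (k + 1) = (k + 1).choose a * ((k : ℚ) + 1 - a) := by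
    have := Nat.choose_mul_succ_eq k a
    rw [← @Nat.cast_inj ℚ] at this
    push_cast [Nat.cast_sub (show a ≤ k + 1 by omega)] at this
    exact this
  have e2 : ((m.choose b : ℕ) : ℚ) * (m + 1) = (m + 1).choose b * ((m : ℚ) + 1 - b) := by
    have := Nat.choose_mul_succ_eq m b
    rw [← @Nat.cast_inj ℚ] at this
    push_cast [Nat.cast_sub (show b ≤ m + 1 by omega)] at this
    exact this
  have e3 : (((k + m + 1).choose (c + 1) : ℕ) : ℚ) * (c + 1) =
      (k + m + 1).choose c * ((k : ℚ) + m + 1 - c) := by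
    have := Nat.choose_succ_right_eq (k + m + 1) c
    rw [← @Nat.cast_inj ℚ] at this
    push_cast [Nat.cast_sub (show c ≤ k + m + 1 by omega)] at this
    exact this
  have hw1 : wt (k + m + 1) a b k = (k.choose a : ℚ) * ((m + 1).choose b : ℚ) / ((k + m + 1).choose c : ℚ) := by
    unfold wt
    rw [show k + m + 1 - k = m + 1 by omega]
  have hw2 : wt (k + m + 1) a b (k + 1) =
      ((k + 1).choose a : ℚ) * (m.choose b : ℚ) / ((k + m + 1).choose (c + 1) : ℚ) := by
    unfold wt
    rw [show k + m + 1 - (k + 1) = m by omega, show k + 1 - a + b = c + 1 by omega]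
  rw [hw1, hw2]
  have p1 : (0 : ℚ) < k.choose a := by exact_mod_cast Nat.choose_pos (by omega)
  have p2 : (0 : ℚ) < m.choose b := by exact_mod_cast Nat.choose_pos (by omega)
  have p3 : (0 : ℚ) < (k + m + 1).choose c := by exact_mod_cast Nat.choose_pos (by omega)
  have p4 : (0 : ℚ) < (k + m + 1).choose (c + 1) := by exact_mod_cast Nat.choose_pos (by omega)
  have hka : (2 * a : ℚ) ≤ k := by exact_mod_cast hk
  have hma : (2 * a : ℚ) ≤ m := by
    have : 2 * a ≤ m := by omega
    exact_mod_cast this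
  have ha0 : (0 : ℚ) ≤ a := Nat.cast_nonneg _
  have hbaq : (b : ℚ) ≤ a := by exact_mod_cast hba
  have hk0 : (0 : ℚ) ≤ k := Nat.cast_nonneg _
  have hm0 : (0 : ℚ) ≤ m := Nat.cast_nonneg _
  have hc0 : (0 : ℚ) ≤ c := Nat.cast_nonneg _
  have q1 : (0 : ℚ) < (k : ℚ) + 1 - a := by linarith
  have q2 : (0 : ℚ) < (m : ℚ) + 1 - b := by linarith
  have q3 : (0 : ℚ) < (c : ℚ) + 1 := by linarith
  have f1 : ((k + 1).choose a : ℚ) = k.choose a * (k + 1) / ((k : ℚ) + 1 - a) := by
    rw [eq_div_iff q1.ne', e1]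
  have f2 : ((m + 1).choose b : ℚ) = m.choose b * (m + 1) / ((m : ℚ) + 1 - b) := by
    rw [eq_div_iff q2.ne', e2]
  have f3 : ((k + m + 1).choose (c + 1) : ℚ) = (k + m + 1).choose c * ((k : ℚ) + m + 1 - c) / (c + 1) := by
    rw [eq_div_iff q3.ne', e3]
  have q4 : (0 : ℚ) < (k : ℚ) + m + 1 - c := by
    have : c ≤ k + m := by omega
    have : (c : ℚ) ≤ k + m := by exact_mod_cast this
    linarith
  have hcases : (b = a ∧ (c : ℚ) = k) ∨ (a = b + 1 ∧ (c : ℚ) = k - 1) := by
    rcases Nat.eq_or_lt_of_le hba with h | h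
    · left
      refine ⟨h, ?_⟩
      have : c = k := by omega
      rw [this]
    · right
      refine ⟨by omega, ?_⟩
      have : k = c + 1 := by omega
      rw [this]
      push_cast
      ring
  constructor
  · intro h
    have hkm : (k : ℚ) + 1 ≤ m + 1 := by
      have : k ≤ m := by omega
      have : (k : ℚ) ≤ m := by exact_mod_cast this
      linarith
    rw [div_le_div_iff₀ p4 p3, f1, f2, f3]
    have key : ((k : ℚ) + 1) * (m + 1 - b) * (c + 1) ≤ (k + 1 - a) * (m + 1) * (k + m + 1 - c) := by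
      rcases hcases with ⟨h1, h2⟩ | ⟨h1, h2⟩
      · rw [h2, h1]
        have := num_ineq (a := a) ((k : ℚ) + 1) ((m : ℚ) + 1) (by linarith) (by linarith) ha0 hkm
        linarith
      · have h3 : (b : ℚ) = a - 1 := by rw [h1]; push_cast; ring
        rw [h2, h3]
        have := num_ineq' (a := a) ((k : ℚ) + 1) ((m : ℚ) + 2) (by linarith) (by linarith) ha0
          (by linarith)
        linarith
    have e : ∀ x y z : ℚ, x * (k + 1) / ((k : ℚ) + 1 - a) * y * z =
        (x * y * z) * ((((k : ℚ) + 1) * (m + 1 - b) * (c + 1)) / ((k + 1 - a) * (m + 1 - b) * (c + 1))) := by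
      intro x y z
      field_simp
    have e' : ∀ x y z : ℚ, x * (y * (m + 1) / ((m : ℚ) + 1 - b)) * (z * ((k : ℚ) + m + 1 - c) / (c + 1)) =
        (x * y * z) * (((k + 1 - a) * (m + 1) * (k + m + 1 - c)) / ((k + 1 - a) * (m + 1 - b) * (c + 1))) := by
      intro x y z
      field_simp
    rw [e, e']
    gcongr
  · intro h
    rw [div_le_div_iff₀ p3 p4, f1, f2, f3]
    have key : ((k + 1 - a) * (m + 1) * (k + m + 1 - c) : ℚ) ≤ ((k : ℚ) + 1) * (m + 1 - b) * (c + 1) := by
      have hkm : (m : ℚ) + 1 ≤ k := by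
        have : m + 1 ≤ k := by omega
        exact_mod_cast this
      rcases hcases with ⟨h1, h2⟩ | ⟨h1, h2⟩
      · rw [h2, h1]
        have := num_ineq (a := a) ((m : ℚ) + 1) ((k : ℚ) + 1) (by linarith) (by linarith) ha0
          (by linarith)
        linarith
      · have h3 : (b : ℚ) = a - 1 := by rw [h1]; push_cast; ring
        rw [h2, h3]
        have := num_ineq' (a := a) ((m : ℚ) + 2) ((k : ℚ) + 1) (by linarith) (by linarith) ha0
          (by linarith)
        linarith
    have e : ∀ x y z : ℚ, x * (k + 1) / ((k : ℚ) + 1 - a) * y * z =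
        (x * y * z) * ((((k : ℚ) + 1) * (m + 1 - b) * (c + 1)) / ((k + 1 - a) * (m + 1 - b) * (c + 1))) := by
      intro x y z
      field_simp
    have e' : ∀ x y z : ℚ, x * (y * (m + 1) / ((m : ℚ) + 1 - b)) * (z * ((k : ℚ) + m + 1 - c) / (c + 1)) =
        (x * y * z) * (((k + 1 - a) * (m + 1) * (k + m + 1 - c)) / ((k + 1 - a) * (m + 1 - b) * (c + 1))) := by
      intro x y z
      field_simp
    rw [e, e']
    gcongr

lemma wt_min {n a b k : ℕ} (hba : b ≤ a) (hab : a ≤ b + 1) (hk : 2 * a ≤ k) (hn : k + 2 * a ≤ n) :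
    wt n a b ((n + 1) / 2) ≤ wt n a b k := by
  rcases le_total ((n + 1) / 2) k with h | h
  · induction k, h using Nat.le_induction with
    | base => exact le_rfl
    | succ k hk' ih =>
      have h1 := (wt_step (n := n) (k := k) hba hab (by omega) (by omega)).2 (by omega)
      exact (ih (by omega) (by omega)).trans h1
  · obtain ⟨j, hj⟩ : ∃ j, (n + 1) / 2 = k + j := ⟨(n + 1) / 2 - k, by omega⟩
    have : ∀ i, i ≤ j → wt n a b (k + i) ≤ wt n a b k := by
      intro i
      induction i with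
      | zero => intro _; exact le_rfl
      | succ i ih =>
        intro hi
        have h1 := (wt_step (n := n) (k := k + i) hba hab (by omega) (by omega)).1 (by omega)
        exact h1.trans (ih (by omega))
    rw [hj]
    exact this j le_rfl

/-- remove `a` elements and add `b` elements -/
def Zs {n : ℕ} (a b : ℕ) (X : Finset (Fin n)) : Finset (Finset (Fin n)) :=
  ((X.powersetCard a) ×ˢ (Xᶜ.powersetCard b)).image fun p => (X \ p.1) ∪ p.2

lemma card_Zs {n : ℕ} (a b : ℕ) (X : Finset (Fin n)) :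
    (Zs a b X).card = X.card.choose a * (n - X.card).choose b := by
  unfold Zs
  rw [card_image_of_injOn, card_product, card_powersetCard, card_powersetCard, card_compl, Fintype.card_fin]
  rintro ⟨P, Q⟩ h ⟨P', Q'⟩ h' heq
  simp only [coe_product, Set.mem_prod, mem_coe, mem_powersetCard] at h h'
  obtain ⟨⟨h1, -⟩, h2, -⟩ := h
  obtain ⟨⟨h3, -⟩, h4, -⟩ := h'
  have h5 := Finset.ext_iff.1 heq
  simp only [mem_union, mem_sdiff] at h5
  rw [Prod.mk.injEq]
  constructor
  · ext x
    by_cases hx : x ∈ X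
    · have hQ : x ∉ Q := fun h => (mem_compl.1 (h2 h)) hx
      have hQ' : x ∉ Q' := fun h => (mem_compl.1 (h4 h)) hx
      have := h5 x
      tauto
    · exact ⟨fun h => absurd (h1 h) hx, fun h => absurd (h3 h) hx⟩
  · ext x
    by_cases hx : x ∈ X
    · exact ⟨fun h => absurd hx (mem_compl.1 (h2 h)), fun h => absurd hx (mem_compl.1 (h4 h))⟩
    · have := h5 x
      tauto

lemma mem_Zs {n : ℕ} {a b : ℕ} {X Z : Finset (Fin n)} (h : Z ∈ Zs a b X) :
    (X \ Z).card = a ∧ (Z \ X).card = b ∧ Z.card = X.card - a + b := by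
  obtain ⟨⟨P, Q⟩, hp, rfl⟩ := mem_image.1 h
  obtain ⟨h1, h2⟩ := mem_product.1 hp
  obtain ⟨h3, h4⟩ := mem_powersetCard.1 h1
  obtain ⟨h5, h6⟩ := mem_powersetCard.1 h2
  dsimp only at h3 h4 h5 h6 ⊢
  have e1 : X \ ((X \ P) ∪ Q) = P := by
    ext x
    have a1 := @h3 x
    have a2 : x ∈ Q → x ∉ X := fun h => mem_compl.1 (h5 h)
    simp only [mem_sdiff, mem_union]
    tauto
  have e2 : ((X \ P) ∪ Q) \ X = Q := by
    ext x
    have a1 := @h3 x
    have a2 : x ∈ Q → x ∉ X := fun h => mem_compl.1 (h5 h)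
    simp only [mem_sdiff, mem_union]
    tauto
  refine ⟨by rw [e1, h4], by rw [e2, h6], ?_⟩
  rw [card_union_of_disjoint, card_sdiff_of_subset h3, h4, h6]
  rw [disjoint_left]
  intro x hx hx'
  exact mem_compl.1 (h5 hx') (mem_sdiff.1 hx).1

/-- the bound for families with large differences -/
lemma diff_bound2 {n : ℕ} (r : ℕ) (hr : 1 ≤ r) (𝒢 : Finset (Finset (Fin n)))
    (hw : ∀ X ∈ 𝒢, r ≤ X.card ∧ X.card + r ≤ n)
    (h : ∀ X ∈ 𝒢, ∀ Y ∈ 𝒢, X ≠ Y → r ≤ (X \ Y).card) (hn : r ≤ n) :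
    𝒢.card * (((n + 1) / 2).choose (r / 2) * (n / 2).choose ((r - 1) / 2)) ≤
      n.choose ((n + 1) / 2 - r / 2 + (r - 1) / 2) := by
  classical
  set a := r / 2 with ha
  set b := (r - 1) / 2 with hb
  have key : ∀ X ∈ 𝒢, ∀ Y ∈ 𝒢, ∀ Z ∈ Zs a b X, ∀ Z' ∈ Zs a b Y, Z ⊆ Z' → X = Y := by
    intro X hX Y hY Z hZ Z' hZ' hsub
    by_contra hXY
    have h1 := h X hX Y hY hXY
    have h2 : X \ Y ⊆ (X \ Z) ∪ (Z' \ Y) := by
      intro x hx
      have a1 := @hsub x
      simp only [mem_sdiff, mem_union] at hx ⊢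
      tauto
    have h3 := (card_le_card h2).trans (card_union_le _ _)
    rw [(mem_Zs hZ).1, (mem_Zs hZ').2.1] at h3
    omega
  set ℬ := 𝒢.biUnion (Zs a b) with hℬ
  have hanti : IsAntichain (· ⊆ ·) (SetLike.coe ℬ) := by
    intro B hB B' hB' hne hsub
    obtain ⟨X, hX, hBX⟩ := mem_biUnion.1 (mem_coe.1 hB)
    obtain ⟨Y, hY, hBY⟩ := mem_biUnion.1 (mem_coe.1 hB')
    have hXY := key X hX Y hY B hBX B' hBY hsub
    subst hXY
    exact hne (eq_of_subset_of_card_le hsub (by rw [(mem_Zs hBX).2.2, (mem_Zs hBY).2.2]))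
  have hlym := lubell_yamamoto_meshalkin_inequality_sum_inv_choose (𝕜 := ℚ) hanti
  rw [hℬ, sum_biUnion, Fintype.card_fin] at hlym
  · have h1 : ∀ X ∈ 𝒢, wt n a b ((n + 1) / 2) ≤ ∑ B ∈ Zs a b X, ((n.choose B.card : ℕ) : ℚ)⁻¹ := by
      intro X hX
      obtain ⟨h3, h4⟩ := hw X hX
      rw [sum_congr rfl (g := fun _ => ((n.choose (X.card - a + b) : ℕ) : ℚ)⁻¹) fun B hB => by
        rw [(mem_Zs hB).2.2], sum_const, card_Zs, nsmul_eq_mul, ← div_eq_mul_inv]
      have := wt_min (n := n) (a := a) (b := b) (k := X.card) (by omega) (by omega) (by omega) (by omega)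
      refine this.trans (le_of_eq ?_)
      unfold wt
      push_cast
      rfl
    have h2 := (sum_le_sum h1).trans hlym
    have hn2 : n - (n + 1) / 2 = n / 2 := by omega
    unfold wt at h2
    rw [sum_const, nsmul_eq_mul, hn2, ← mul_div_assoc, div_le_one (by
      exact_mod_cast Nat.choose_pos (by omega))] at h2
    exact_mod_cast h2
  · intro X hX Y hY hXY
    change Disjoint (Zs a b X) (Zs a b Y)
    rw [disjoint_left]
    intro B hB hB'
    exact hXY (key X hX Y hY B hB B hB' (Subset.refl _))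

/-- the upper bound -/
theorem upper2 {r n m : ℕ} (hr : 1 ≤ r) (hm : 2 ≤ m) (h : Fam r n m) :
    2 * m * (((n + 1) / 2).choose (r / 2) * (n / 2).choose ((r - 1) / 2)) ≤
      n.choose ((n + 1) / 2 - r / 2 + (r - 1) / 2) := by
  classical
  obtain ⟨A, hA⟩ := h
  have hother : ∀ i : Fin m, ∃ j, i ≠ j := by
    intro i
    have : Nontrivial (Fin m) := Fin.nontrivial_iff_two_le.2 hm
    obtain ⟨j, hj⟩ := exists_ne i
    exact ⟨j, hj.symm⟩
  have hbig : ∀ i, r ≤ (A i).card ∧ r ≤ (A i)ᶜ.card := by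
    intro i
    obtain ⟨j, hj⟩ := hother i
    obtain ⟨h1, -, h3, -⟩ := hA i j hj
    exact ⟨h1.trans (card_le_card inter_subset_left), h3.trans (card_le_card inter_subset_left)⟩
  have hn : r ≤ n := by
    have h1 := (hbig ⟨0, by omega⟩).1
    have h2 := card_le_univ (A ⟨0, by omega⟩)
    rw [Fintype.card_fin] at h2
    omega
  set f : Fin m × Bool → Finset (Fin n) := fun x => if x.2 then A x.1 else (A x.1)ᶜ with hf
  have hdiff : ∀ x y, x ≠ y → r ≤ (f x \ f y).card := by
    rintro ⟨i, b⟩ ⟨j, c⟩ hne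
    by_cases hij : i = j
    · subst hij
      have hbc : b ≠ c := fun h => hne (by rw [h])
      cases b <;> cases c
      · exact absurd rfl hbc
      · simp only [hf, Bool.false_eq_true, if_false, if_true, sdiff_eq_inter_compl, inter_self]
        exact (hbig i).2
      · simp only [hf, Bool.false_eq_true, if_false, if_true, sdiff_eq_inter_compl, compl_compl, inter_self]
        exact (hbig i).1
      · exact absurd rfl hbc
    · obtain ⟨h1, h2, h3, h4⟩ := hA i j hij
      cases b <;> cases c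
      · simp only [hf, Bool.false_eq_true, if_false, sdiff_eq_inter_compl, compl_compl]
        exact h3
      · simp only [hf, Bool.false_eq_true, if_false, if_true, sdiff_eq_inter_compl]
        exact h4
      · simp only [hf, Bool.false_eq_true, if_false, if_true, sdiff_eq_inter_compl, compl_compl]
        exact h1
      · simp only [hf, if_true, sdiff_eq_inter_compl]
        exact h2
  have hinj : Function.Injective f := by
    intro x y hxy
    by_contra hne
    have := hdiff x y hne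
    rw [hxy, sdiff_self, Finset.bot_eq_empty, card_empty] at this
    omega
  have h1 := diff_bound2 r hr (univ.image f) (by
    intro X hX
    obtain ⟨⟨i, b⟩, _, rfl⟩ := mem_image.1 hX
    obtain ⟨h5, h6⟩ := hbig i
    have h7 := card_compl (A i)
    rw [Fintype.card_fin] at h7
    have h8 := card_le_univ (A i)
    rw [Fintype.card_fin] at h8
    cases b
    · simp only [hf, Bool.false_eq_true, if_false]
      omega
    · simp only [hf, if_true]
      omega) (by
    intro X hX Y hY hXY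
    obtain ⟨x, _, rfl⟩ := mem_image.1 hX
    obtain ⟨y, _, rfl⟩ := mem_image.1 hY
    exact hdiff x y fun h => hXY (by rw [h])) hn
  rw [card_image_of_injective _ hinj, card_univ, Fintype.card_prod, Fintype.card_fin, Fintype.card_bool] at h1
  rwa [mul_comm 2 m]

end Pool.Agent.K9h60.QI
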