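import Pool.Agent.K9h60.QI.Main
import Pool.Agent.K9h60.QI.Upper2
import Pool.Agent.K9h60.QI.Lower2
import Pool.Agent.K9h60.QI.LimA
import Pool.Agent.K9h60.QI.LimB
import Pool.Agent.H119R2.Kp.NT

/-!
# Families with `r`-fold qualitatively independent pairs: asymptotics (helper60)
-/

set_option autoImplicit false

open Finset Filter Topology

namespace Pool.Agent.K9h60.QI

/-- the upper bound -/
theorem upperM2 {r n : ℕ} (hr : 1 ≤ r) (hn : 4 * r ≤ n) :
    2 * maxQI r n * (((n + 1) / 2).choose (r / 2) * (n / 2).choose ((r - 1) / 2)) ≤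
      n.choose ((n + 1) / 2 - r / 2 + (r - 1) / 2) :=
  upper2 hr (le_maxQI hr (fam_two hn)) (fam_maxQI hr)

lemma sum_lim (r u : ℕ) : Tendsto (fun n : ℕ => ((∑ j ∈ range (2 * u + 1),
    (if 2 * u + r ≤ 2 * j then (2 * u).choose j * (n - 2 * u).choose (n / 2 - j) else 0) : ℕ) : ℝ) /
      n.choose (n / 2)) atTop (𝓝 ((tl r u : ℝ) / 4 ^ u)) := by
  have h1 : ∀ j ∈ range (2 * u + 1), Tendsto (fun n : ℕ => (if 2 * u + r ≤ 2 * j then
      ((2 * u).choose j : ℝ) * (((n - 2 * u).choose (n / 2 - j) : ℝ) / n.choose (n / 2)) else 0)) atTop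
      (𝓝 (if 2 * u + r ≤ 2 * j then ((2 * u).choose j : ℝ) * (1 / 2 ^ (2 * u)) else 0)) := by
    intro j _
    by_cases hj : 2 * u + r ≤ 2 * j
    · simp only [if_pos hj]
      exact (remove_lim (2 * u) j).const_mul _
    · simp only [if_neg hj]
      exact tendsto_const_nhds
  have h2 := tendsto_finsetSum (range (2 * u + 1)) h1
  have e1 : ∑ j ∈ range (2 * u + 1), (if 2 * u + r ≤ 2 * j then ((2 * u).choose j : ℝ) * (1 / 2 ^ (2 * u)) else 0)
      = (tl r u : ℝ) / 4 ^ u := by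
    unfold tl
    push_cast
    rw [sum_div]
    apply sum_congr rfl
    intro j _
    by_cases hj : 2 * u + r ≤ 2 * j
    · rw [if_pos hj, if_pos hj, pow_mul, mul_one_div]
      norm_num
    · rw [if_neg hj, if_neg hj, zero_div]
  rw [e1] at h2
  refine h2.congr fun n => ?_
  push_cast
  rw [sum_div]
  apply sum_congr rfl
  intro j _
  by_cases hj : 2 * u + r ≤ 2 * j
  · rw [if_pos hj, if_pos hj, mul_div_assoc]
  · rw [if_neg hj, if_neg hj, zero_div]

/-- the lower limit is at least `1/2` -/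
theorem lower_asymp {r : ℕ} (hr : 1 ≤ r) {ε : ℝ} (hε : 0 < ε) :
    ∀ᶠ n : ℕ in atTop, (1 / 2 - ε) * (n.choose (n / 2) : ℝ) ≤ (n : ℝ) ^ (r - 1) * maxQI r n := by
  obtain ⟨u, hu⟩ := tl_lim r (show 0 < ε / 3 by positivity)
  obtain ⟨δ, hδ, hδ0⟩ : ∃ δ : ℝ, (1 / 2 - ε) * (1 + δ) ^ (r - 1) < 1 / 2 - 2 * ε / 3 ∧ 0 < δ := by
    have hc : Continuous fun δ : ℝ => (1 / 2 - ε) * (1 + δ) ^ (r - 1) := by fun_prop
    have h1 : Tendsto (fun δ : ℝ => (1 / 2 - ε) * (1 + δ) ^ (r - 1)) (𝓝 0)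
        (𝓝 ((1 / 2 - ε) * (1 + 0) ^ (r - 1))) := hc.tendsto 0
    have h2 : (1 / 2 - ε) * (1 + 0) ^ (r - 1) < 1 / 2 - 2 * ε / 3 := by
      rw [add_zero, one_pow, mul_one]
      linarith
    have h3 := h1.eventually (gt_mem_nhds h2)
    have h4 := (eventually_nhdsWithin_of_eventually_nhds (s := Set.Ioi (0 : ℝ)) h3).and
      self_mem_nhdsWithin
    obtain ⟨δ, hd1, hd2⟩ := h4.exists
    exact ⟨δ, hd1, hd2⟩
  obtain ⟨N0, hN0⟩ := Pool.Agent.H119R2.Kp.prime_between δ hδ0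
  have h5 := (sum_lim r u).eventually (lt_mem_nhds (show (tl r u : ℝ) / 4 ^ u - ε / 3 < (tl r u : ℝ) / 4 ^ u by
    linarith))
  filter_upwards [h5, eventually_ge_atTop N0, eventually_ge_atTop (4 * r), eventually_ge_atTop (4 * u),
    eventually_gt_atTop 0] with n h6 h7 h8 h9 h10
  obtain ⟨p, hp, hp1, hp2⟩ := hN0 n (by exact_mod_cast h7)
  have hpn : n ≤ p := by
    have : (n : ℝ) < p := hp1
    exact_mod_cast this.le
  have : Fact p.Prime := ⟨hp⟩
  have h11 := lower2 (r := r) (q := p) (u := u) (M := maxQI r n) hr (by omega) h9 hpn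
    fun m h => le_maxQI hr h
  have hC : (0 : ℝ) < n.choose (n / 2) := by exact_mod_cast Nat.choose_pos (Nat.div_le_self _ _)
  have hn0 : (0 : ℝ) < n := by exact_mod_cast h10
  rw [lt_div_iff₀ hC] at h6
  have h12 : ((∑ j ∈ range (2 * u + 1),
    (if 2 * u + r ≤ 2 * j then (2 * u).choose j * (n - 2 * u).choose (n / 2 - j) else 0) : ℕ) : ℝ) ≤
      (p : ℝ) ^ (r - 1) * maxQI r n := by exact_mod_cast h11
  have h13 : (p : ℝ) ^ (r - 1) ≤ ((1 + δ) * n) ^ (r - 1) := by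
    gcongr
  have h14 : (0 : ℝ) ≤ maxQI r n := Nat.cast_nonneg _
  have h15 : (0 : ℝ) < (1 + δ) ^ (r - 1) := by positivity
  have h16 : ((1 + δ) ^ (r - 1)) * ((1 / 2 - ε) * (n.choose (n / 2) : ℝ)) ≤
      ((1 + δ) ^ (r - 1)) * ((n : ℝ) ^ (r - 1) * maxQI r n) := by
    calc ((1 + δ) ^ (r - 1)) * ((1 / 2 - ε) * (n.choose (n / 2) : ℝ))
        = ((1 / 2 - ε) * (1 + δ) ^ (r - 1)) * (n.choose (n / 2) : ℝ) := by ring
      _ ≤ (1 / 2 - 2 * ε / 3) * (n.choose (n / 2) : ℝ) := by gcongr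
      _ ≤ ((tl r u : ℝ) / 4 ^ u - ε / 3) * (n.choose (n / 2) : ℝ) :=
          mul_le_mul_of_nonneg_right (by linarith) hC.le
      _ ≤ (p : ℝ) ^ (r - 1) * maxQI r n := h6.le.trans h12
      _ ≤ ((1 + δ) * n) ^ (r - 1) * maxQI r n := by gcongr
      _ = ((1 + δ) ^ (r - 1)) * ((n : ℝ) ^ (r - 1) * maxQI r n) := by
          rw [mul_pow]
          ring
  exact le_of_mul_le_mul_left h16 h15

/-- the upper limit is at most `2 ^ (r - 2) * ⌊r / 2⌋! * ⌊(r - 1) / 2⌋!` -/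
theorem upper_asymp {r : ℕ} (hr : 1 ≤ r) {ε : ℝ} (hε : 0 < ε) :
    ∀ᶠ n : ℕ in atTop, (n : ℝ) ^ (r - 1) * maxQI r n ≤
      (2 ^ (r - 1) / 2 * ((r / 2).factorial * ((r - 1) / 2).factorial) + ε) * (n.choose (n / 2) : ℝ) := by
  set a := r / 2 with ha
  set b := (r - 1) / 2 with hb
  have hab : a + b = r - 1 := by omega
  set z : ℕ → ℝ := fun n => (1 - ((n / 2 : ℕ) : ℝ) / n + (1 - a : ℝ) / n) ^ a *
    (((n / 2 : ℕ) : ℝ) / n + (1 - b : ℝ) / n) ^ b with hz
  have hzl : Tendsto z atTop (𝓝 ((1 - 1 / 2 + 0) ^ a * (1 / 2 + 0) ^ b)) :=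
    (((tendsto_const_nhds.sub half_lim).add (const_lim _)).pow a).mul ((half_lim.add (const_lim _)).pow b)
  have e1 : ((1 : ℝ) - 1 / 2 + 0) ^ a * (1 / 2 + 0) ^ b = 1 / 2 ^ (r - 1) := by
    have i1 : (1 : ℝ) - 1 / 2 + 0 = 1 / 2 := by norm_num
    have i2 : (1 : ℝ) / 2 + 0 = 1 / 2 := by norm_num
    rw [i1, i2, ← pow_add, hab, one_div_pow]
  rw [e1] at hzl
  have hw : Tendsto (fun n => ((a.factorial : ℝ) * b.factorial) / (2 * z n)) atTop
      (𝓝 (((a.factorial : ℝ) * b.factorial) / (2 * (1 / 2 ^ (r - 1))))) :=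
    tendsto_const_nhds.div (hzl.const_mul 2) (by positivity)
  have e2 : ((a.factorial : ℝ) * b.factorial) / (2 * (1 / 2 ^ (r - 1))) =
      2 ^ (r - 1) / 2 * ((a.factorial : ℝ) * b.factorial) := by
    field_simp
  rw [e2] at hw
  have h1 := hw.eventually (gt_mem_nhds (show 2 ^ (r - 1) / 2 * ((a.factorial : ℝ) * b.factorial) <
    2 ^ (r - 1) / 2 * ((a.factorial : ℝ) * b.factorial) + ε by linarith))
  have h2 := hzl.eventually (lt_mem_nhds (show (0 : ℝ) < 1 / 2 ^ (r - 1) by positivity))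
  filter_upwards [h1, h2, eventually_ge_atTop (4 * r), eventually_gt_atTop 0] with n h3 h4 h5 h6
  have hn0 : (0 : ℝ) < n := by exact_mod_cast h6
  have h7 := upperM2 hr h5
  have h8 : n.choose ((n + 1) / 2 - a + b) ≤ n.choose (n / 2) := Nat.choose_le_middle _ _
  have h9 : (((n + 1) / 2 + 1 - a) ^ a) * ((n / 2 + 1 - b) ^ b) ≤
      (a.factorial * b.factorial) * (((n + 1) / 2).choose a * (n / 2).choose b) := by
    have i1 := Nat.pow_sub_le_descFactorial ((n + 1) / 2) a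
    have i2 := Nat.pow_sub_le_descFactorial (n / 2) b
    rw [Nat.descFactorial_eq_factorial_mul_choose] at i1 i2
    calc _ ≤ (a.factorial * ((n + 1) / 2).choose a) * (b.factorial * (n / 2).choose b) :=
          Nat.mul_le_mul i1 i2
      _ = _ := by ring
  have h10 : z n * (n : ℝ) ^ (r - 1) = ((((n + 1) / 2 + 1 - a) ^ a * ((n / 2 + 1 - b) ^ b) : ℕ) : ℝ) := by
    have j1 : (1 - ((n / 2 : ℕ) : ℝ) / n + (1 - a : ℝ) / n) * n = (((n + 1) / 2 + 1 - a : ℕ) : ℝ) := by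
      have k1 : (n + 1) / 2 + 1 - a + n / 2 + a = n + 1 := by omega
      have k2 : (((n + 1) / 2 + 1 - a : ℕ) : ℝ) + ((n / 2 : ℕ) : ℝ) + a = n + 1 := by exact_mod_cast k1
      field_simp
      linarith
    have j2 : (((n / 2 : ℕ) : ℝ) / n + (1 - b : ℝ) / n) * n = ((n / 2 + 1 - b : ℕ) : ℝ) := by
      rw [Nat.cast_sub (by omega)]
      push_cast
      field_simp
      ring
    rw [hz]
    dsimp only
    rw [← hab, pow_add]
    push_cast
    rw [← j1, ← j2, mul_pow, mul_pow]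
    ring
  have h11 : z n * (n : ℝ) ^ (r - 1) * (2 * maxQI r n) ≤ (a.factorial * b.factorial) * (n.choose (n / 2) : ℝ) := by
    rw [h10]
    have : (((n + 1) / 2 + 1 - a) ^ a * ((n / 2 + 1 - b) ^ b)) * (2 * maxQI r n) ≤
        (a.factorial * b.factorial) * n.choose (n / 2) := by
      calc _ ≤ ((a.factorial * b.factorial) * (((n + 1) / 2).choose a * (n / 2).choose b)) * (2 * maxQI r n) :=
            Nat.mul_le_mul_right _ h9
        _ = (a.factorial * b.factorial) * (2 * maxQI r n * (((n + 1) / 2).choose a * (n / 2).choose b)) := by ring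
        _ ≤ _ := Nat.mul_le_mul_left _ (h7.trans h8)
    exact_mod_cast this
  have hC : (0 : ℝ) < n.choose (n / 2) := by exact_mod_cast Nat.choose_pos (Nat.div_le_self _ _)
  calc (n : ℝ) ^ (r - 1) * maxQI r n
      ≤ ((a.factorial : ℝ) * b.factorial) / (2 * z n) * (n.choose (n / 2) : ℝ) := by
        rw [div_mul_eq_mul_div, le_div_iff₀ (by positivity)]
        linarith
    _ ≤ _ := by gcongr

end Pool.Agent.K9h60.QI
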