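import Pool.Agent.K9h60.QI.Lower

/-!
# Families with `r`-fold qualitatively independent pairs: the maximum (helper60)
-/

set_option autoImplicit false

open Finset

namespace Pool.Agent.K9h60.QI

/-- the largest number of sets in a family with `r`-fold qualitatively independent pairs of subsets of an
`n`-element set -/
noncomputable def maxQI (r n : ℕ) : ℕ := sSup {m | Fam r n m}

lemma fam_le {r n m : ℕ} (hr : 1 ≤ r) (h : Fam r n m) : m ≤ 2 ^ n := by
  classical
  obtain ⟨A, hA⟩ := h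
  have hinj : Function.Injective A := by
    intro i j hij
    by_contra hne
    have h1 := (hA i j hne).2.1
    rw [hij, inter_compl, card_empty] at h1
    omega
  have := Fintype.card_le_of_injective A hinj
  simpa using this

lemma bdd {r n : ℕ} (hr : 1 ≤ r) : BddAbove {m | Fam r n m} := ⟨2 ^ n, fun _ h => fam_le hr h⟩

lemma le_maxQI {r n m : ℕ} (hr : 1 ≤ r) (h : Fam r n m) : m ≤ maxQI r n := le_csSup (bdd hr) h

lemma fam_zero (r n : ℕ) : Fam r n 0 := ⟨fun i => i.elim0, fun i => i.elim0⟩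

lemma fam_maxQI {r n : ℕ} (hr : 1 ≤ r) : Fam r n (maxQI r n) :=
  Nat.sSup_mem ⟨0, fam_zero r n⟩ (bdd hr)

lemma blk {a r n : ℕ} (h : a + r ≤ n) {S : Finset (Fin n)}
    (hS : ∀ x : Fin n, a ≤ (x : ℕ) → (x : ℕ) < a + r → x ∈ S) : r ≤ S.card := by
  calc r = (univ : Finset (Fin r)).card := by simp
    _ ≤ S.card := card_le_card_of_injOn (fun i => ⟨a + i, by omega⟩)
        (fun i _ => hS _ (Nat.le_add_right _ _) (by simp))
        (fun i _ j _ hij => by
          have := congrArg Fin.val hij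
          apply Fin.ext
          simpa using this)

lemma fam_two {r n : ℕ} (h : 4 * r ≤ n) : Fam r n 2 := by
  have h01 : QI r (univ.filter fun x : Fin n => (x : ℕ) < 2 * r)
      (univ.filter fun x : Fin n => r ≤ (x : ℕ) ∧ (x : ℕ) < 3 * r) := by
    refine ⟨blk (a := r) (by omega) ?_, blk (a := 0) (by omega) ?_, blk (a := 2 * r) (by omega) ?_,
      blk (a := 3 * r) (by omega) ?_⟩ <;>
    · intro x h1 h2
      simp only [mem_inter, mem_compl, mem_filter, mem_univ, true_and]
      omega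
  have h10 : QI r (univ.filter fun x : Fin n => r ≤ (x : ℕ) ∧ (x : ℕ) < 3 * r)
      (univ.filter fun x : Fin n => (x : ℕ) < 2 * r) := by
    obtain ⟨a, b, c, d⟩ := h01
    refine ⟨?_, ?_, ?_, ?_⟩
    · rw [inter_comm]; exact a
    · rw [inter_comm]; exact c
    · rw [inter_comm]; exact b
    · rw [inter_comm]; exact d
  refine ⟨fun i => if i = 0 then univ.filter fun x : Fin n => (x : ℕ) < 2 * r else
    univ.filter fun x : Fin n => r ≤ (x : ℕ) ∧ (x : ℕ) < 3 * r, fun i j hij => ?_⟩
  by_cases hi : i = 0 <;> by_cases hj : j = 0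
  · exact absurd (hi.trans hj.symm) hij
  · simp only [hi, hj, if_true, if_false]; exact h01
  · simp only [hi, hj, if_true, if_false]; exact h10
  · omega

/-- the upper bound -/
theorem upperM {r n : ℕ} (hr : 1 ≤ r) (hn : 4 * r ≤ n) :
    2 * maxQI r n * (n + r - 1).choose (r - 1) ≤ (n + r - 1).choose ((n + r - 1) / 2) :=
  upper hr (le_maxQI hr (fam_two hn)) (fam_maxQI hr)

/-- the lower bound -/
theorem lowerM {r n q : ℕ} (hr : 1 ≤ r) (hn : 4 * r ≤ n) (hq : q.Prime) (hqn : n - r ≤ q) :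
    (n - r).choose (n / 2 - r) ≤ q ^ (r - 1) * maxQI r n := by
  have : Fact q.Prime := ⟨hq⟩
  exact lower hr hn hqn fun m h => le_maxQI hr h

lemma pow_le_choose (n s : ℕ) : n ^ s ≤ s.factorial * (n + s).choose s := by
  have h1 : (n + 1) ^ s ≤ (n + 1).ascFactorial s := Nat.pow_succ_le_ascFactorial _ _
  have h2 := Nat.ascFactorial_eq_factorial_mul_choose n s
  rw [h2] at h1
  exact (Nat.pow_le_pow_left (Nat.le_succ n) s).trans h1

lemma central_le (n s : ℕ) : (n + s).choose ((n + s) / 2) ≤ 2 ^ s * n.choose (n / 2) := by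
  induction s with
  | zero => simp
  | succ s ih =>
    have h1 : (n + s + 1).choose ((n + s + 1) / 2) ≤ 2 * (n + s).choose ((n + s) / 2) := by
      rcases Nat.eq_zero_or_pos ((n + s + 1) / 2) with h0 | h0
      · rw [h0, Nat.choose_zero_right]
        have : 0 < (n + s).choose ((n + s) / 2) := Nat.choose_pos (by omega)
        omega
      · obtain ⟨t, ht⟩ : ∃ t, (n + s + 1) / 2 = t + 1 := ⟨(n + s + 1) / 2 - 1, by omega⟩
        rw [ht, Nat.choose_succ_succ']
        have a := Nat.choose_le_middle t (n + s)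
        have b := Nat.choose_le_middle (t + 1) (n + s)
        omega
    calc (n + (s + 1)).choose ((n + (s + 1)) / 2) ≤ 2 * (n + s).choose ((n + s) / 2) := h1
      _ ≤ 2 * (2 ^ s * n.choose (n / 2)) := Nat.mul_le_mul_left _ ih
      _ = _ := by ring

/-- the order of magnitude, above -/
theorem order_above {r n : ℕ} (hr : 1 ≤ r) (hn : 4 * r ≤ n) :
    2 * n ^ (r - 1) * maxQI r n ≤ 2 ^ (r - 1) * (r - 1).factorial * n.choose (n / 2) := by
  have h1 := upperM hr hn
  rw [show n + r - 1 = n + (r - 1) by omega] at h1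
  have h2 := pow_le_choose n (r - 1)
  have h3 := central_le n (r - 1)
  calc 2 * n ^ (r - 1) * maxQI r n
      ≤ 2 * ((r - 1).factorial * (n + (r - 1)).choose (r - 1)) * maxQI r n := by gcongr
    _ = (r - 1).factorial * (2 * maxQI r n * (n + (r - 1)).choose (r - 1)) := by ring
    _ ≤ (r - 1).factorial * (2 ^ (r - 1) * n.choose (n / 2)) :=
        Nat.mul_le_mul_left _ (h1.trans h3)
    _ = _ := by ring

lemma shrink {r n : ℕ} (hn : 4 * r ≤ n) (j : ℕ) (hj : j ≤ r) :
    n.choose (n / 2) ≤ 3 ^ j * (n - j).choose (n / 2 - j) := by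
  induction j with
  | zero => simp
  | succ j ih =>
    have h1 := ih (by omega)
    obtain ⟨a, ha⟩ : ∃ a, n - j = a + 1 := ⟨n - j - 1, by omega⟩
    obtain ⟨b, hb⟩ : ∃ b, n / 2 - j = b + 1 := ⟨n / 2 - j - 1, by omega⟩
    have h2 : (n - j).choose (n / 2 - j) ≤ 3 * (n - (j + 1)).choose (n / 2 - (j + 1)) := by
      rw [ha, hb, show n - (j + 1) = a by omega, show n / 2 - (j + 1) = b by omega]
      have h3 := Nat.add_one_mul_choose_eq a b
      have h4 : a + 1 ≤ 3 * (b + 1) := by omega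
      have h5 : (a + 1).choose (b + 1) * (b + 1) ≤ 3 * a.choose b * (b + 1) := by
        rw [← h3]
        calc (a + 1) * a.choose b ≤ 3 * (b + 1) * a.choose b := Nat.mul_le_mul_right _ h4
          _ = _ := by ring
      exact Nat.le_of_mul_le_mul_right h5 (Nat.succ_pos b)
    calc n.choose (n / 2) ≤ 3 ^ j * (n - j).choose (n / 2 - j) := h1
      _ ≤ 3 ^ j * (3 * (n - (j + 1)).choose (n / 2 - (j + 1))) := Nat.mul_le_mul_left _ h2
      _ = _ := by ring

/-- the order of magnitude, below -/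
theorem order_below {r n : ℕ} (hr : 1 ≤ r) (hn : 4 * r ≤ n) :
    n.choose (n / 2) ≤ 6 ^ r * n ^ (r - 1) * maxQI r n := by
  obtain ⟨q, hq, h1, h2⟩ := Nat.exists_prime_lt_and_le_two_mul (n - r) (by omega)
  have h3 := lowerM hr hn hq h1.le
  have h4 := shrink hn r le_rfl
  calc n.choose (n / 2) ≤ 3 ^ r * (n - r).choose (n / 2 - r) := h4
    _ ≤ 3 ^ r * (q ^ (r - 1) * maxQI r n) := Nat.mul_le_mul_left _ h3
    _ ≤ 3 ^ r * ((2 * n) ^ (r - 1) * maxQI r n) := by
        gcongr
        omega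
    _ = 3 ^ r * 2 ^ (r - 1) * n ^ (r - 1) * maxQI r n := by
        rw [mul_pow]
        ring
    _ ≤ 3 ^ r * 2 ^ r * n ^ (r - 1) * maxQI r n := by
        gcongr
        · norm_num
        · omega
    _ = 6 ^ r * n ^ (r - 1) * maxQI r n := by
        rw [← mul_pow]
        norm_num

end Pool.Agent.K9h60.QI
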