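import Pool.Agent.K9h60.QI.Exact
import Pool.Agent.K9h60.QI.Main

/-!
# Families with `r`-fold qualitatively independent pairs: doubling (helper60)
-/

set_option autoImplicit false

open Finset

namespace Pool.Agent.K9h60.QI

/-- the same condition for subsets of any finite type -/
def QIt {V : Type} [Fintype V] [DecidableEq V] (r : ℕ) (A B : Finset V) : Prop :=
  r ≤ (A ∩ B).card ∧ r ≤ (A ∩ Bᶜ).card ∧ r ≤ (Aᶜ ∩ B).card ∧ r ≤ (Aᶜ ∩ Bᶜ).card

lemma QIt.symm {V : Type} [Fintype V] [DecidableEq V] {r : ℕ} {A B : Finset V} (h : QIt r A B) : QIt r B A := by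
  obtain ⟨h1, h2, h3, h4⟩ := h
  refine ⟨?_, ?_, ?_, ?_⟩
  · rw [inter_comm]; exact h1
  · rw [inter_comm]; exact h3
  · rw [inter_comm]; exact h2
  · rw [inter_comm]; exact h4

lemma fam_type {V ι : Type} [Fintype V] [DecidableEq V] [Fintype ι] {r n m : ℕ} (hV : Fintype.card V = n)
    (hι : Fintype.card ι = m) (A : ι → Finset V) (h : ∀ i j, i ≠ j → QIt r (A i) (A j)) : Fam r n m := by
  let e : V ≃ Fin n := Fintype.equivFinOfCardEq hV
  let f : Fin m ≃ ι := (Fintype.equivFinOfCardEq hι).symm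
  have hc : ∀ S : Finset V, (S.map e.toEmbedding)ᶜ = Sᶜ.map e.toEmbedding := by
    intro S
    ext x
    simp
  refine ⟨fun i => (A (f i)).map e.toEmbedding, fun i j hij => ?_⟩
  obtain ⟨h1, h2, h3, h4⟩ := h (f i) (f j) (fun h => hij (f.injective h))
  refine ⟨?_, ?_, ?_, ?_⟩
  · rw [← map_inter, card_map]; exact h1
  · rw [hc, ← map_inter, card_map]; exact h2
  · rw [hc, ← map_inter, card_map]; exact h3
  · rw [hc, hc, ← map_inter, card_map]; exact h4

lemma dis_inter {V W : Type} [DecidableEq V] [DecidableEq W] (S S' : Finset V) (T T' : Finset W) :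
    S.disjSum T ∩ S'.disjSum T' = (S ∩ S').disjSum (T ∩ T') := by
  ext x
  rcases x with x | x <;> simp

lemma dis_compl {V W : Type} [Fintype V] [Fintype W] [DecidableEq V] [DecidableEq W] (S : Finset V)
    (T : Finset W) : (S.disjSum T)ᶜ = Sᶜ.disjSum Tᶜ := by
  ext x
  rcases x with x | x <;> simp

lemma qi_dis {V W : Type} [Fintype V] [Fintype W] [DecidableEq V] [DecidableEq W] {r : ℕ}
    {S S' : Finset V} {T T' : Finset W}
    (h1 : r ≤ (S ∩ S').card + (T ∩ T').card) (h2 : r ≤ (S ∩ S'ᶜ).card + (T ∩ T'ᶜ).card)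
    (h3 : r ≤ (Sᶜ ∩ S').card + (Tᶜ ∩ T').card) (h4 : r ≤ (Sᶜ ∩ S'ᶜ).card + (Tᶜ ∩ T'ᶜ).card) :
    QIt r (S.disjSum T) (S'.disjSum T') := by
  refine ⟨?_, ?_, ?_, ?_⟩
  · rw [dis_inter, card_disjSum]; exact h1
  · rw [dis_compl, dis_inter, card_disjSum]; exact h2
  · rw [dis_compl, dis_inter, card_disjSum]; exact h3
  · rw [dis_compl, dis_compl, dis_inter, card_disjSum]; exact h4

lemma fam_succ {r n m : ℕ} (h : Fam r n m) : Fam r (n + 1) m := by
  obtain ⟨A, hA⟩ := h
  refine fam_type (V := Fin n ⊕ Unit) (ι := Fin m) (by simp) (by simp)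
    (fun i => (A i).disjSum ∅) fun i j hij => ?_
  obtain ⟨h1, h2, h3, h4⟩ := hA i j hij
  exact qi_dis (by omega) (by omega) (by omega) (by omega)

lemma big {r n m : ℕ} (hm : 2 ≤ m) {A : Fin m → Finset (Fin n)} (hA : ∀ i j, i ≠ j → QI r (A i) (A j))
    (i : Fin m) : 2 * r ≤ (A i).card ∧ 2 * r ≤ (A i)ᶜ.card := by
  have : Nontrivial (Fin m) := Fin.nontrivial_iff_two_le.2 hm
  obtain ⟨j, hj⟩ := exists_ne i
  obtain ⟨h1, h2, h3, h4⟩ := hA i j hj.symm
  have e1 := card_sdiff_add_card_inter (A i) (A j)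
  have e2 := card_sdiff_add_card_inter (A i)ᶜ (A j)
  rw [sdiff_eq_inter_compl] at e1 e2
  omega

/-- doubling -/
theorem double {r n m : ℕ} (hm : 2 ≤ m) (h : Fam r n m) : Fam (2 * r) (2 * n) (2 * m + 1) := by
  obtain ⟨A, hA⟩ := h
  have hb := big hm hA
  have hs : ∀ i j, (A i ∩ A j).card + (A i ∩ (A j)ᶜ).card = (A i).card := by
    intro i j
    have e1 := card_sdiff_add_card_inter (A i) (A j)
    rw [sdiff_eq_inter_compl] at e1
    omega
  have hs' : ∀ i j, ((A i)ᶜ ∩ A j).card + ((A i)ᶜ ∩ (A j)ᶜ).card = (A i)ᶜ.card := by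
    intro i j
    have e1 := card_sdiff_add_card_inter (A i)ᶜ (A j)
    rw [sdiff_eq_inter_compl] at e1
    omega
  let B : Fin m ⊕ (Fin m ⊕ Unit) → Finset (Fin n ⊕ Fin n) := fun x =>
    match x with
    | Sum.inl i => (A i).disjSum (A i)
    | Sum.inr (Sum.inl i) => (A i).disjSum (A i)ᶜ
    | Sum.inr (Sum.inr _) => (univ : Finset (Fin n)).disjSum ∅
  have b12 : ∀ i j, QIt (2 * r) (B (Sum.inl i)) (B (Sum.inr (Sum.inl j))) := by
    intro i j
    have := hs i j
    have := hs' i j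
    have := hb i
    apply qi_dis <;> (try simp only [compl_compl]) <;> omega
  have b13 : ∀ i x, QIt (2 * r) (B (Sum.inl i)) (B (Sum.inr (Sum.inr x))) := by
    intro i x
    have := hb i
    apply qi_dis <;> simp only [inter_univ, inter_empty, compl_univ, compl_empty, card_empty] <;> omega
  have b23 : ∀ i x, QIt (2 * r) (B (Sum.inr (Sum.inl i))) (B (Sum.inr (Sum.inr x))) := by
    intro i x
    have := hb i
    apply qi_dis <;>
      simp only [inter_univ, inter_empty, compl_univ, compl_empty, card_empty, compl_compl] <;> omega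
  refine fam_type (V := Fin n ⊕ Fin n) (ι := Fin m ⊕ (Fin m ⊕ Unit)) ?_ ?_ B ?_
  · rw [Fintype.card_sum, Fintype.card_fin]; ring
  · rw [Fintype.card_sum, Fintype.card_sum, Fintype.card_fin, Fintype.card_unit]; ring
  · rintro (i | i | ⟨⟩) (j | j | ⟨⟩) hij
    · obtain ⟨h1, h2, h3, h4⟩ := hA i j fun h => hij (by rw [h])
      exact qi_dis (by omega) (by omega) (by omega) (by omega)
    · exact b12 i j
    · exact b13 i ()
    · exact (b12 j i).symm
    · obtain ⟨h1, h2, h3, h4⟩ := hA i j fun h => hij (by rw [h])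
      apply qi_dis <;> (try simp only [compl_compl]) <;> omega
    · exact b23 i ()
    · exact (b13 j ()).symm
    · exact (b23 j ()).symm
    · exact absurd rfl hij

/-- the Sylvester families -/
theorem sylv (k : ℕ) : Fam (2 ^ k) (4 * 2 ^ k) (4 * 2 ^ k - 1) := by
  induction k with
  | zero =>
    refine fam_masks (k := 2) rfl ![3, 5, 6] ?_
    decide
  | succ k ih =>
    have hk : 1 ≤ 2 ^ k := Nat.one_le_two_pow
    have h := double (by omega) ih
    have e1 : 2 * 2 ^ k = 2 ^ (k + 1) := by ring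
    have e2 : 2 * (4 * 2 ^ k) = 4 * 2 ^ (k + 1) := by ring
    have e3 : 2 * (4 * 2 ^ k - 1) + 1 = 4 * 2 ^ (k + 1) - 1 := by
      rw [pow_succ]
      omega
    rw [e1, e2, e3] at h
    exact h

end Pool.Agent.K9h60.QI
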