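import Pool.Agent.K9h60.QI.Upper

/-!
# Families with `r`-fold qualitatively independent pairs: two exact values (helper60)
-/

set_option autoImplicit false

open Finset

namespace Pool.Agent.K9h60.QI

/-- number of ones among the first `n` bits -/
def pc : ℕ → ℕ → ℕ
  | 0, _ => 0
  | k + 1, a => a % 2 + pc k (a / 2)

/-- the set of a mask -/
def msk (n a : ℕ) : Finset (Fin n) := univ.filter fun x => a.testBit x = true

lemma card_msk (n a : ℕ) : (msk n a).card = pc n a := by
  induction n generalizing a with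
  | zero => simp [msk, pc]
  | succ n ih =>
    unfold msk
    rw [card_filter, Fin.sum_univ_succ, pc, ← ih (a / 2), msk, card_filter]
    congr 1
    · rcases Nat.mod_two_eq_zero_or_one a with h | h <;> simp [h]
    · apply sum_congr rfl
      intro x _
      rw [Fin.val_succ, Nat.testBit_succ]

lemma msk_inter (n a b : ℕ) : msk n a ∩ msk n b = msk n (a &&& b) := by
  ext x
  simp [msk]

lemma qi_msk {r n k a b : ℕ} (hn : n = 2 * k) (ha : pc n a = k) (hb : pc n b = k)
    (h1 : r ≤ pc n (a &&& b)) (h2 : pc n (a &&& b) + r ≤ k) : QI r (msk n a) (msk n b) := by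
  have hA := card_msk n a
  have hB := card_msk n b
  have hI : (msk n a ∩ msk n b).card = pc n (a &&& b) := by rw [msk_inter, card_msk]
  set A := msk n a
  set B := msk n b
  have e1 := card_sdiff_add_card_inter A B
  have e2 := card_sdiff_add_card_inter B A
  have e3 := card_union_add_card_inter A B
  have e4 := card_compl (A ∪ B)
  rw [Fintype.card_fin] at e4
  have e5 := card_le_univ (A ∪ B)
  rw [Fintype.card_fin] at e5
  rw [inter_comm B A] at e2
  refine ⟨by omega, ?_, ?_, ?_⟩
  · rw [← sdiff_eq_inter_compl]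
    omega
  · rw [inter_comm, ← sdiff_eq_inter_compl]
    omega
  · rw [← compl_union]
    omega

/-- masks of a list give a family -/
lemma fam_masks {r n k m : ℕ} (hn : n = 2 * k) (L : Fin m → ℕ)
    (h : ∀ i j, i ≠ j → pc n (L i) = k ∧ pc n (L j) = k ∧ r ≤ pc n (L i &&& L j) ∧
      pc n (L i &&& L j) + r ≤ k) : Fam r n m :=
  ⟨fun i => msk n (L i), fun i j hij => by
    obtain ⟨h1, h2, h3, h4⟩ := h i j hij
    exact qi_msk hn h1 h2 h3 h4⟩

theorem fam7 : Fam 2 8 7 := by
  refine fam_masks (k := 4) rfl ![170, 204, 102, 240, 90, 60, 150] ?_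
  decide +kernel

theorem fam66 : Fam 2 12 66 := by
  refine fam_masks (k := 6) rfl ![2095, 2142, 2163, 2203, 2236, 2261, 2278, 2281, 2333, 2358, 2379,
    2405, 2424, 2439, 2474, 2481, 2508, 2514, 2613, 2618, 2631, 2649, 2668, 2701, 2710, 2723, 2762,
    2800, 2830, 2835, 2857, 2900, 2914, 2968, 2980, 3009, 3095, 3129, 3149, 3178, 3188, 3214, 3237,
    3250, 3267, 3288, 3354, 3363, 3372, 3398, 3409, 3465, 3476, 3552, 3595, 3612, 3622, 3666, 3681,
    3729, 3752, 3780, 3845, 3888, 3912, 3970] ?_
  decide +kernel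

end Pool.Agent.K9h60.QI
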