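import Pool.Agent.K9h60.QI.Near

/-!
# Families with `r`-fold qualitatively independent pairs: Hadamard matrices and two examples (helper60)
-/

set_option autoImplicit false

open Finset

namespace Pool.Agent.K9h60.QI

/-- a Hadamard matrix of order `4 r` gives a family -/
lemma fam_had {r : ℕ} (hr : 1 ≤ r) (H : Matrix (Fin (4 * r)) (Fin (4 * r)) ℤ)
    (h1 : ∀ i j, H i j = 1 ∨ H i j = -1) (h2 : H * H.transpose = (4 * r : ℤ) • 1) :
    Fam r (4 * r) (4 * r - 1) := by
  let o : Fin (4 * r) := ⟨0, by omega⟩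
  have h3 : ∀ i j, i ≠ j → ∑ x, H i x * H j x = 0 := by
    intro i j hij
    have := congrFun (congrFun h2 i) j
    rw [Matrix.mul_apply, Matrix.smul_apply, Matrix.one_apply_ne hij, smul_zero] at this
    exact this
  let A : {i : Fin (4 * r) // i ≠ o} → Finset (Fin (4 * r)) :=
    fun i => univ.filter fun x => H o x * H i.1 x = 1
  have hsg : ∀ i x, sg (A i) x = H o x * H i.1 x := by
    intro i x
    simp only [sg, A, mem_filter, mem_univ, true_and]
    rcases h1 o x with a | a <;> rcases h1 i.1 x with b | b <;> rw [a, b] <;> norm_num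
  refine fam_type (V := Fin (4 * r)) (ι := {i : Fin (4 * r) // i ≠ o}) (by simp) ?_ A ?_
  · rw [Fintype.card_subtype_compl, Fintype.card_subtype_eq, Fintype.card_fin]
  · intro i j hij
    have hs : ∀ i : {i : Fin (4 * r) // i ≠ o}, (A i).card = 2 * r := by
      intro i
      have e1 := sg_mul (univ : Finset (Fin (4 * r))) (A i)
      have e2 : ∑ x, sg (univ : Finset (Fin (4 * r))) x * sg (A i) x = 0 := by
        rw [← h3 o i.1 fun h => i.2 h.symm]
        apply sum_congr rfl
        intro x _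
        rw [hsg]
        simp [sg]
      rw [e2, univ_inter, compl_univ, empty_inter, univ_inter, empty_inter, card_empty] at e1
      have := cells (A i) (A i)
      omega
    have hi := hs i
    have hj := hs j
    have e1 := sg_mul (A i) (A j)
    have e2 : ∑ x, sg (A i) x * sg (A j) x = 0 := by
      rw [← h3 i.1 j.1 fun h => hij (Subtype.ext h)]
      apply sum_congr rfl
      intro x _
      rw [hsg, hsg]
      rcases h1 o x with a | a <;> rw [a] <;> ring
    rw [e2] at e1
    have := cells (A i) (A j)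
    refine ⟨?_, ?_, ?_, ?_⟩ <;> omega

/-- masks of a list give a family -/
lemma fam_masks' {r n m : ℕ} (L : Fin m → ℕ)
    (h : ∀ i j, i ≠ j → r ≤ pc n (L i &&& L j) ∧ pc n (L i &&& L j) + r ≤ pc n (L i) ∧
      pc n (L i &&& L j) + r ≤ pc n (L j) ∧ pc n (L i) + pc n (L j) + r ≤ n + pc n (L i &&& L j)) :
    Fam r n m := by
  refine ⟨fun i => msk n (L i), fun i j hij => ?_⟩
  obtain ⟨h1, h2, h3, h4⟩ := h i j hij
  have hA := card_msk n (L i)
  have hB := card_msk n (L j)
  have hI : (msk n (L i) ∩ msk n (L j)).card = pc n (L i &&& L j) := by rw [msk_inter, card_msk]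
  have := cells (msk n (L i)) (msk n (L j))
  change QI r (msk n (L i)) (msk n (L j))
  refine ⟨?_, ?_, ?_, ?_⟩ <;> omega

theorem fam11 : Fam 3 12 11 := by
  refine fam_masks' ![2618, 3188, 2281, 2514, 2980, 3912, 3729, 3363, 2631, 3214, 2333] ?_
  decide +kernel

theorem fam12 : Fam 3 13 12 := by
  refine fam_masks' ![1565, 2599, 4691, 698, 873, 207, 1923, 2331, 5163, 3658, 6793, 4878] ?_
  decide +kernel

lemma not_sq {k : ℕ} (hk : 1 ≤ k) : ¬ IsSquare (8 * 2 ^ k + 1) := by
  rintro ⟨e, he⟩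
  have he1 : 1 ≤ e := by
    rcases Nat.eq_zero_or_pos e with h | h
    · rw [h] at he; omega
    · exact h
  obtain ⟨f, rfl⟩ : ∃ f, e = f + 1 := ⟨e - 1, by omega⟩
  have h1 : f * (f + 2) = 2 ^ (k + 3) := by
    have : f * (f + 2) + 1 = 8 * 2 ^ k + 1 := by rw [he]; ring
    rw [pow_add]
    omega
  obtain ⟨a, -, ha⟩ := (Nat.dvd_prime_pow Nat.prime_two).1 (Dvd.intro _ h1)
  obtain ⟨b, -, hb⟩ := (Nat.dvd_prime_pow Nat.prime_two).1 (Dvd.intro_left _ h1)
  have hlt : 2 ^ a < 2 ^ b := by omega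
  have hab : a < b := (Nat.pow_lt_pow_iff_right (by norm_num)).1 hlt
  have ha1 : a ≤ 1 := by
    by_contra hcon
    have c1 : 2 ^ 2 ∣ 2 ^ a := pow_dvd_pow 2 (by omega)
    have c2 : 2 ^ 2 ∣ 2 ^ b := pow_dvd_pow 2 (by omega)
    omega
  interval_cases a
  · rw [ha] at h1 hb
    have : 2 ^ b = 3 := by omega
    rcases Nat.eq_zero_or_pos b with h | h
    · omega
    · have := dvd_pow_self 2 h.ne'
      omega
  · have hf : f = 2 := by omega
    rw [hf] at h1
    have : 2 ^ (k + 3) = 2 ^ 3 := by omega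
    have := Nat.pow_right_injective (le_refl 2) this
    omega

lemma mem_of_eq {r n m : ℕ} (hr : 1 ≤ r) (h : maxQI r n = m) : Fam r n m := h ▸ fam_maxQI hr

lemma max_le {r n c : ℕ} (hr : 1 ≤ r) (h : ∀ m, Fam r n m → m ≤ c) : maxQI r n ≤ c := h _ (fam_maxQI hr)

lemma max_succ {r : ℕ} (hr : 1 ≤ r) (h : maxQI r (4 * r) = 4 * r - 1) (hs : ¬ IsSquare (8 * r + 1)) :
    maxQI r (4 * r + 1) = 4 * r - 1 :=
  le_antisymm (max_le hr fun _ hm => (near1 hr hm).2 hs) (le_maxQI hr (fam_succ (mem_of_eq hr h)))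

lemma max_sylv (k : ℕ) : maxQI (2 ^ k) (4 * 2 ^ k) = 4 * 2 ^ k - 1 :=
  le_antisymm (max_le Nat.one_le_two_pow fun _ hm => near0 Nat.one_le_two_pow hm)
    (le_maxQI Nat.one_le_two_pow (sylv k))

end Pool.Agent.K9h60.QI
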