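import Pool.Agent.K9h60.QI.Upper

/-!
# Families with `r`-fold qualitatively independent pairs: the construction (helper60)
-/

set_option autoImplicit false

open Finset Polynomial

namespace Pool.Agent.K9h60.QI

variable {n : ℕ}

/-- the monic polynomial with the roots `T` -/
noncomputable def fp (q : ℕ) (T : Finset (Fin n)) : (ZMod q)[X] := ∏ x ∈ T, (X - C ((x : ℕ) : ZMod q))

lemma fp_monic (q : ℕ) (T : Finset (Fin n)) : (fp q T).Monic :=
  monic_prod_of_monic _ _ fun _ _ => monic_X_sub_C _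

lemma fp_deg (q : ℕ) [Fact q.Prime] (T : Finset (Fin n)) : (fp q T).natDegree = T.card := by
  unfold fp
  rw [natDegree_prod_of_monic _ _ fun _ _ => monic_X_sub_C _,
    sum_congr rfl (g := fun _ => 1) fun x _ => natDegree_X_sub_C _, sum_const, smul_eq_mul, mul_one]

/-- the elements which are not among the first `r` -/
def Hi (n r : ℕ) : Finset (Fin n) := univ.filter fun x => r ≤ (x : ℕ)

/-- the first `r` elements -/
def Lo (n r : ℕ) : Finset (Fin n) := univ.filter fun x => (x : ℕ) < r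

lemma card_Lo {r : ℕ} (h : r ≤ n) : (Lo n r).card = r := by
  unfold Lo
  rw [Fin.card_filter_val_lt]
  exact min_eq_right h

lemma card_Hi {r : ℕ} (h : r ≤ n) : (Hi n r).card = n - r := by
  have h1 : (Lo n r).card + (Hi n r).card = n := by
    have := card_filter_add_card_filter_not (s := (univ : Finset (Fin n))) (fun x => (x : ℕ) < r)
    rw [card_univ, Fintype.card_fin] at this
    have e : Hi n r = univ.filter (fun x : Fin n => ¬ (x : ℕ) < r) := by
      ext x
      simp [Hi]
    rw [e]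
    exact this
  rw [card_Lo h] at h1
  omega

lemma cast_inj {q r : ℕ} (hq : n - r ≤ q) {x y : Fin n} (hx : x ∈ Hi n r) (hy : y ∈ Hi n r)
    (h : ((x : ℕ) : ZMod q) = ((y : ℕ) : ZMod q)) : x = y := by
  have hx' : r ≤ (x : ℕ) := (mem_filter.1 hx).2
  have hy' : r ≤ (y : ℕ) := (mem_filter.1 hy).2
  have hxn := x.2
  have hyn := y.2
  rw [ZMod.natCast_eq_natCast_iff] at h
  apply Fin.ext
  by_contra hne
  rcases Nat.lt_or_gt_of_ne hne with hlt | hlt
  · have h1 := (Nat.modEq_iff_dvd' hlt.le).1 h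
    have h2 := Nat.le_of_dvd (by omega) h1
    omega
  · have h1 := (Nat.modEq_iff_dvd' hlt.le).1 h.symm
    have h2 := Nat.le_of_dvd (by omega) h1
    omega

/-- sets with the same leading coefficients differ in at least `r` elements -/
lemma sep (q : ℕ) [Fact q.Prime] {r k : ℕ} (hq : n - r ≤ q) (hk : r ≤ k) {T T' : Finset (Fin n)}
    (hT : T ⊆ Hi n r) (hT' : T' ⊆ Hi n r) (hc : T.card = k) (hc' : T'.card = k) (hne : T ≠ T')
    (hcoef : ∀ j, k - r < j → (fp q T).coeff j = (fp q T').coeff j) : r ≤ (T \ T').card := by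
  have hg : fp q T - fp q T' ≠ 0 := by
    intro h0
    rw [sub_eq_zero] at h0
    obtain ⟨x, hx, hx'⟩ : ∃ x ∈ T, x ∉ T' := by
      by_contra hcon
      push Not at hcon
      exact hne (eq_of_subset_of_card_le hcon (by rw [hc, hc']))
    have e1 : (fp q T).eval ((x : ℕ) : ZMod q) = 0 := by
      unfold fp
      rw [eval_prod]
      exact prod_eq_zero hx (by simp)
    have e2 : (fp q T').eval ((x : ℕ) : ZMod q) ≠ 0 := by
      unfold fp
      rw [eval_prod, prod_ne_zero_iff]
      intro y hy h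
      rw [eval_sub, eval_X, eval_C, sub_eq_zero] at h
      have := cast_inj hq (hT hx) (hT' hy) h
      exact hx' (this ▸ hy)
    rw [h0] at e1
    exact e2 e1
  have hdeg : (fp q T - fp q T').natDegree ≤ k - r := by
    rw [natDegree_le_iff_coeff_eq_zero]
    intro j hj
    rw [coeff_sub, hcoef j hj, sub_self]
  have hdvd : fp q (T ∩ T') ∣ fp q T - fp q T' := by
    have d1 : fp q (T ∩ T') ∣ fp q T := prod_dvd_prod_of_subset _ _ _ inter_subset_left
    have d2 : fp q (T ∩ T') ∣ fp q T' := prod_dvd_prod_of_subset _ _ _ inter_subset_right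
    exact dvd_sub d1 d2
  have h1 := natDegree_le_of_dvd hdvd hg
  rw [fp_deg] at h1
  have h2 := card_sdiff_add_card_inter T T'
  omega

/-- the leading coefficients -/
noncomputable def lc (q r k : ℕ) (T : Finset (Fin n)) : Fin (r - 1) → ZMod q :=
  fun j => (fp q T).coeff (k - r + 1 + j)

lemma lc_coef (q : ℕ) [Fact q.Prime] {r k : ℕ} (hr : 1 ≤ r) (hk : r ≤ k) {T T' : Finset (Fin n)}
    (hc : T.card = k) (hc' : T'.card = k) (h : lc q r k T = lc q r k T') (j : ℕ) (hj : k - r < j) :
    (fp q T).coeff j = (fp q T').coeff j := by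
  rcases lt_trichotomy j k with hlt | heq | hgt
  · have h1 := congrFun h ⟨j - (k - r + 1), by omega⟩
    simp only [lc] at h1
    have e : k - r + 1 + (j - (k - r + 1)) = j := by omega
    rw [e] at h1
    exact h1
  · have h1 : (fp q T).coeff j = 1 := by
      rw [heq, ← hc, ← fp_deg q T]
      exact (fp_monic q T).coeff_natDegree
    have h2 : (fp q T').coeff j = 1 := by
      rw [heq, ← hc', ← fp_deg q T']
      exact (fp_monic q T').coeff_natDegree
    rw [h1, h2]
  · rw [coeff_eq_zero_of_natDegree_lt (by rw [fp_deg, hc]; exact hgt),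
      coeff_eq_zero_of_natDegree_lt (by rw [fp_deg, hc']; exact hgt)]

/-- a set of sets gives a family -/
lemma fam_of {r k : ℕ} (hrn : r ≤ n) (hk : 2 * (k + r) ≤ n) (𝒯 : Finset (Finset (Fin n)))
    (hT : ∀ T ∈ 𝒯, T ⊆ Hi n r ∧ T.card = k)
    (hd : ∀ T ∈ 𝒯, ∀ T' ∈ 𝒯, T ≠ T' → r ≤ (T \ T').card) : Fam r n 𝒯.card := by
  classical
  let e := 𝒯.equivFin.symm
  refine ⟨fun i => (e i).1 ∪ Lo n r, fun i j hij => ?_⟩
  have hne : (e i).1 ≠ (e j).1 := fun h => hij (e.injective (Subtype.ext h))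
  obtain ⟨hi1, hi2⟩ := hT _ (e i).2
  obtain ⟨hj1, hj2⟩ := hT _ (e j).2
  set T := (e i).1
  set T' := (e j).1
  have hTT : r ≤ (T \ T').card := hd _ (e i).2 _ (e j).2 hne
  have hTT' : r ≤ (T' \ T).card := hd _ (e j).2 _ (e i).2 hne.symm
  have hHL : ∀ x, x ∈ Hi n r → x ∉ Lo n r := by
    intro x hx hx'
    have h1 := (mem_filter.1 hx).2
    have h2 := (mem_filter.1 hx').2
    omega
  have hcT : (T ∪ Lo n r).card = k + r := by
    rw [card_union_of_disjoint (disjoint_left.2 fun x hx => hHL x (hi1 hx)), hi2, card_Lo hrn]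
  have hcT' : (T' ∪ Lo n r).card = k + r := by
    rw [card_union_of_disjoint (disjoint_left.2 fun x hx => hHL x (hj1 hx)), hj2, card_Lo hrn]
  have hint : r ≤ ((T ∪ Lo n r) ∩ (T' ∪ Lo n r)).card := by
    calc r = (Lo n r).card := (card_Lo hrn).symm
      _ ≤ _ := card_le_card (subset_inter subset_union_right subset_union_right)
  refine ⟨hint, ?_, ?_, ?_⟩
  · refine hTT.trans (card_le_card fun x hx => ?_)
    rw [mem_sdiff] at hx
    rw [mem_inter, mem_compl, mem_union, mem_union]
    exact ⟨Or.inl hx.1, fun h => h.elim hx.2 (hHL x (hi1 hx.1))⟩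
  · refine hTT'.trans (card_le_card fun x hx => ?_)
    rw [mem_sdiff] at hx
    rw [mem_inter, mem_compl, mem_union, mem_union]
    exact ⟨fun h => h.elim hx.2 (hHL x (hj1 hx.1)), Or.inl hx.1⟩
  · change r ≤ ((T ∪ Lo n r)ᶜ ∩ (T' ∪ Lo n r)ᶜ).card
    rw [← compl_union, card_compl, Fintype.card_fin]
    have h1 := card_union_add_card_inter (T ∪ Lo n r) (T' ∪ Lo n r)
    omega

/-- the lower bound: some family has at least the average number of sets -/
theorem lower {r q M : ℕ} [Fact q.Prime] (hr : 1 ≤ r) (hn : 4 * r ≤ n) (hq : n - r ≤ q)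
    (hM : ∀ m, Fam r n m → m ≤ M) : (n - r).choose (n / 2 - r) ≤ q ^ (r - 1) * M := by
  classical
  set k := n / 2 - r with hk
  have hrk : r ≤ k := by omega
  set 𝒯 := (Hi n r).powersetCard k with h𝒯
  have h1 : 𝒯.card = (n - r).choose k := by rw [h𝒯, card_powersetCard, card_Hi (by omega)]
  rw [← h1, card_eq_sum_card_fiberwise (f := lc q r k) (t := univ) fun _ _ => mem_coe.2 (mem_univ _)]
  refine (sum_le_sum (g := fun _ => M) fun κ _ => ?_).trans (le_of_eq ?_)
  · apply hM
    apply fam_of (k := k) (by omega) (by omega)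
    · intro T hT
      exact mem_powersetCard.1 (mem_filter.1 hT).1
    · intro T hT T' hT' hne
      obtain ⟨h2, h3⟩ := mem_filter.1 hT
      obtain ⟨h4, h5⟩ := mem_filter.1 hT'
      obtain ⟨h6, h7⟩ := mem_powersetCard.1 h2
      obtain ⟨h8, h9⟩ := mem_powersetCard.1 h4
      exact sep q hq hrk h6 h8 h7 h9 hne (lc_coef q hr hrk h7 h9 (h3.trans h5.symm))
  · rw [sum_const, card_univ, Fintype.card_fun, ZMod.card, Fintype.card_fin, smul_eq_mul]

end Pool.Agent.K9h60.QI
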