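import Pool.Agent.K9h60.QI.Dbl

/-!
# Families with `r`-fold qualitatively independent pairs: ground sets of size `4 r` and `4 r + 1` (helper60)
-/

set_option autoImplicit false

open Finset

namespace Pool.Agent.K9h60.QI

/-- vectors with constant inner products -/
lemma gram_le {n : ℕ} {ι : Type} [Fintype ι] [DecidableEq ι] (w : ι → Fin n → ℝ) (t : ℝ) (ht : 0 ≤ t)
    (htn : t < n) (hd : ∀ i, ∑ x, w i x * w i x = n) (ho : ∀ i j, i ≠ j → ∑ x, w i x * w j x = t) :
    Fintype.card ι ≤ n := by
  have hli : LinearIndependent ℝ w := by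
    rw [Fintype.linearIndependent_iff]
    intro g hg
    have h1 : ∀ j, t * (∑ i, g i) + (n - t) * g j = 0 := by
      intro j
      have h2 : ∑ x, (∑ i, g i • w i) x * w j x = 0 := by
        rw [hg]
        simp
      have h3 : ∑ x, (∑ i, g i • w i) x * w j x = ∑ i, g i * ∑ x, w i x * w j x := by
        simp only [Finset.sum_apply, Pi.smul_apply, smul_eq_mul, sum_mul, mul_sum]
        rw [sum_comm]
        apply sum_congr rfl
        intro i _
        apply sum_congr rfl
        intro x _
        ring
      have h4 : ∀ i, g i * ∑ x, w i x * w j x = t * g i + (if i = j then (n - t) * g i else 0) := by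
        intro i
        by_cases hij : i = j
        · subst hij
          rw [hd, if_pos rfl]
          ring
        · rw [ho i j hij, if_neg hij]
          ring
      rw [h3, sum_congr rfl fun i _ => h4 i, sum_add_distrib, ← mul_sum, sum_ite_eq' univ j, if_pos (mem_univ _)] at h2
      exact h2
    have h5 : (∑ i, g i) * (Fintype.card ι * t + (n - t)) = 0 := by
      have := sum_congr rfl fun j (_ : j ∈ (univ : Finset ι)) => h1 j
      rw [sum_add_distrib, ← mul_sum, sum_const, sum_const_zero, card_univ, nsmul_eq_mul, ← mul_sum] at this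
      linarith
    have h6 : (0 : ℝ) < Fintype.card ι * t + (n - t) := by
      have : (0 : ℝ) ≤ Fintype.card ι * t := by positivity
      linarith
    have h7 : ∑ i, g i = 0 := by
      rcases mul_eq_zero.1 h5 with h | h
      · exact h
      · exact absurd h h6.ne'
    intro j
    have h8 := h1 j
    rw [h7, mul_zero, zero_add] at h8
    rcases mul_eq_zero.1 h8 with h | h
    · linarith
    · exact h
  have := hli.fintype_card_le_finrank
  rwa [Module.finrank_fin_fun] at this

/-- a square matrix with the Gram matrix `4 r I + J` exists only if `8 r + 1` is a square -/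
lemma gram_sq {r : ℕ} (hr : 1 ≤ r) (w : Fin (4 * r + 1) → Fin (4 * r + 1) → ℤ)
    (hd : ∀ i, ∑ x, w i x * w i x = 4 * r + 1) (ho : ∀ i j, i ≠ j → ∑ x, w i x * w j x = 1) :
    IsSquare (8 * r + 1) := by
  let X : Matrix (Fin (4 * r + 1)) (Fin (4 * r + 1)) ℤ := Matrix.of w
  let Y : Matrix (Fin (4 * r + 1)) (Fin (4 * r + 1)) ℚ := X.map (Int.castRingHom ℚ)
  have hr' : (0 : ℚ) < 4 * r := by
    have : (0 : ℚ) < r := by exact_mod_cast hr
    linarith
  have hY : Y * Y.transpose = (4 * r : ℚ) • (1 + Matrix.replicateCol Unit (fun _ : Fin (4 * r + 1) => (1 : ℚ) / (4 * r)) *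
      Matrix.replicateRow Unit (fun _ : Fin (4 * r + 1) => (1 : ℚ))) := by
    ext i j
    rw [Matrix.mul_apply]
    have e1 : ∑ x, Y i x * Y.transpose x j = ((∑ x, w i x * w j x : ℤ) : ℚ) := by
      push_cast
      rfl
    rw [e1]
    simp only [Matrix.smul_apply, Matrix.add_apply, Matrix.mul_apply, Matrix.replicateCol_apply,
      Matrix.replicateRow_apply, univ_unique, sum_singleton, smul_eq_mul, mul_one]
    by_cases hij : i = j
    · subst hij
      rw [hd, Matrix.one_apply_eq]
      push_cast
      field_simp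
    · rw [ho i j hij, Matrix.one_apply_ne hij]
      push_cast
      field_simp
      ring
  have hdet : Y.det * Y.det = (4 * r : ℚ) ^ (4 * r) * (8 * r + 1) := by
    have h1 := congrArg Matrix.det hY
    rw [Matrix.det_mul, Matrix.det_transpose, Matrix.det_smul, Matrix.det_one_add_replicateCol_mul_replicateRow,
      Fintype.card_fin] at h1
    rw [h1]
    simp only [dotProduct, sum_const, card_univ, Fintype.card_fin, nsmul_eq_mul, one_mul]
    push_cast
    rw [pow_succ]
    field_simp
    ring
  rw [← Rat.isSquare_natCast_iff]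
  refine ⟨Y.det / (4 * r) ^ (2 * r), ?_⟩
  rw [div_mul_div_comm, hdet, ← pow_add, show 2 * r + 2 * r = 4 * r by ring]
  push_cast
  field_simp

/-- the sign vector of a set -/
def sg {n : ℕ} (A : Finset (Fin n)) (x : Fin n) : ℤ := if x ∈ A then 1 else -1

lemma sg_self {n : ℕ} (A : Finset (Fin n)) : ∑ x, sg A x * sg A x = n := by
  have : ∀ x : Fin n, sg A x * sg A x = 1 := by
    intro x
    unfold sg
    split_ifs <;> rfl
  rw [sum_congr rfl fun x _ => this x]
  simp

lemma sg_mul {n : ℕ} (A B : Finset (Fin n)) : ∑ x, sg A x * sg B x =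
    ((A ∩ B).card : ℤ) + (Aᶜ ∩ Bᶜ).card - (A ∩ Bᶜ).card - (Aᶜ ∩ B).card := by
  have h1 : ∀ S : Finset (Fin n), (S.card : ℤ) = ∑ x, if x ∈ S then (1 : ℤ) else 0 := by
    intro S
    simp
  rw [h1 (A ∩ B), h1 (Aᶜ ∩ Bᶜ), h1 (A ∩ Bᶜ), h1 (Aᶜ ∩ B), ← sum_add_distrib, ← sum_sub_distrib,
    ← sum_sub_distrib]
  apply sum_congr rfl
  intro x _
  unfold sg
  by_cases hA : x ∈ A <;> by_cases hB : x ∈ B <;> simp [hA, hB]

/-- the cells -/
lemma cells {n : ℕ} (A B : Finset (Fin n)) :
    (A ∩ B).card + (A ∩ Bᶜ).card = A.card ∧ (Aᶜ ∩ B).card + (Aᶜ ∩ Bᶜ).card = Aᶜ.card ∧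
      (A ∩ B).card + (Aᶜ ∩ B).card = B.card ∧ A.card + Aᶜ.card = n := by
  have e1 := card_sdiff_add_card_inter A B
  have e2 := card_sdiff_add_card_inter Aᶜ B
  have e3 := card_sdiff_add_card_inter B A
  have e4 := card_add_card_compl A
  rw [sdiff_eq_inter_compl] at e1 e2 e3
  rw [Fintype.card_fin] at e4
  rw [inter_comm B Aᶜ, inter_comm B A] at e3
  omega

/-- ground sets of size `4 r` -/
theorem near0 {r m : ℕ} (hr : 1 ≤ r) (h : Fam r (4 * r) m) : m ≤ 4 * r - 1 := by
  rcases Nat.lt_or_ge m 2 with hm | hm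
  · omega
  obtain ⟨A, hA⟩ := h
  have hb := big hm hA
  let C : Option (Fin m) → Finset (Fin (4 * r)) := fun o => o.elim univ A
  have hC : ∀ i j, i ≠ j → ∑ x, sg (C i) x * sg (C j) x = 0 := by
    have key : ∀ i, ∑ x, sg (univ : Finset (Fin (4 * r))) x * sg (A i) x = 0 := by
      intro i
      have := hb i
      have := cells (A i) (A i)
      rw [sg_mul, univ_inter, compl_univ, empty_inter, univ_inter, empty_inter, card_empty]
      omega
    rintro (_ | i) (_ | j) hij
    · exact absurd rfl hij
    · exact key j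
    · rw [sum_congr rfl fun x _ => mul_comm _ _]
      exact key i
    · change ∑ x, sg (A i) x * sg (A j) x = 0
      obtain ⟨h1, h2, h3, h4⟩ := hA i j fun h => hij (by rw [h])
      have := cells (A i) (A j)
      rw [sg_mul]
      omega
  have hle := gram_le (ι := Option (Fin m)) (fun i x => (sg (C i) x : ℝ)) 0 le_rfl (by
    have : 0 < 4 * r := by omega
    exact_mod_cast this) (fun i => by exact_mod_cast sg_self (C i)) (fun i j hij => by exact_mod_cast hC i j hij)
  rw [Fintype.card_option, Fintype.card_fin] at hle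
  omega

/-- ground sets of size `4 r + 1` -/
theorem near1 {r m : ℕ} (hr : 1 ≤ r) (h : Fam r (4 * r + 1) m) :
    m ≤ 4 * r ∧ (¬ IsSquare (8 * r + 1) → m ≤ 4 * r - 1) := by
  rcases Nat.lt_or_ge m 2 with hm | hm
  · exact ⟨by omega, fun _ => by omega⟩
  obtain ⟨A, hA⟩ := h
  have hb := big hm hA
  let B : Fin m → Finset (Fin (4 * r + 1)) := fun i => if (A i).card = 2 * r then A i else (A i)ᶜ
  have hBc : ∀ i, (B i).card = 2 * r := by
    intro i
    have := hb i
    have := cells (A i) (A i)
    by_cases hi : (A i).card = 2 * r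
    · simp only [B, if_pos hi]
      exact hi
    · simp only [B, if_neg hi]
      omega
  have hB : ∀ i j, i ≠ j → QI r (B i) (B j) := by
    intro i j hij
    obtain ⟨h1, h2, h3, h4⟩ := hA i j hij
    by_cases hi : (A i).card = 2 * r <;> by_cases hj : (A j).card = 2 * r
    · simp only [B, if_pos hi, if_pos hj]
      exact ⟨h1, h2, h3, h4⟩
    · simp only [B, if_pos hi, if_neg hj]
      exact ⟨h2, by rw [compl_compl]; exact h1, h4, by rw [compl_compl]; exact h3⟩
    · simp only [B, if_neg hi, if_pos hj]
      exact ⟨h3, h4, by rw [compl_compl]; exact h1, by rw [compl_compl]; exact h2⟩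
    · simp only [B, if_neg hi, if_neg hj]
      exact ⟨h4, by rw [compl_compl]; exact h3, by rw [compl_compl]; exact h2,
        by rw [compl_compl, compl_compl]; exact h1⟩
  let C : Option (Fin m) → Finset (Fin (4 * r + 1)) := fun o => o.elim ∅ B
  have hC : ∀ i j, i ≠ j → ∑ x, sg (C i) x * sg (C j) x = 1 := by
    have key : ∀ i, ∑ x, sg (∅ : Finset (Fin (4 * r + 1))) x * sg (B i) x = 1 := by
      intro i
      have := hBc i
      have := cells (B i) (B i)
      rw [sg_mul, empty_inter, compl_empty, univ_inter, empty_inter, univ_inter, card_empty]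
      omega
    rintro (_ | i) (_ | j) hij
    · exact absurd rfl hij
    · exact key j
    · rw [sum_congr rfl fun x _ => mul_comm _ _]
      exact key i
    · change ∑ x, sg (B i) x * sg (B j) x = 1
      obtain ⟨h1, h2, h3, h4⟩ := hB i j fun h => hij (by rw [h])
      have := cells (B i) (B j)
      have := hBc i
      have := hBc j
      rw [sg_mul]
      omega
  have hle := gram_le (ι := Option (Fin m)) (fun i x => (sg (C i) x : ℝ)) 1 zero_le_one (by
    have : 1 < 4 * r + 1 := by omega
    exact_mod_cast this) (fun i => by exact_mod_cast sg_self (C i)) (fun i j hij => by exact_mod_cast hC i j hij)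
  rw [Fintype.card_option, Fintype.card_fin] at hle
  refine ⟨by omega, fun hsq => ?_⟩
  by_contra hcon
  have hm4 : m = 4 * r := by omega
  apply hsq
  let e : Fin (4 * r + 1) ≃ Option (Fin m) := (Fintype.equivFinOfCardEq (by
    rw [Fintype.card_option, Fintype.card_fin, hm4])).symm
  exact gram_sq hr (fun i x => sg (C (e i)) x) (fun i => by
    have := sg_self (C (e i))
    rw [this]
    push_cast
    rfl) fun i j hij => hC _ _ fun h => hij (e.injective h)

end Pool.Agent.K9h60.QI
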