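import Mathlib

/-!
# Families with `r`-fold qualitatively independent pairs: the upper bound (helper60)
-/

set_option autoImplicit false

open Finset

namespace Pool.Agent.K9h60.QI

/-- all the four sets have at least `r` elements -/
def QI {n : ℕ} (r : ℕ) (A B : Finset (Fin n)) : Prop :=
  r ≤ (A ∩ B).card ∧ r ≤ (A ∩ Bᶜ).card ∧ r ≤ (Aᶜ ∩ B).card ∧ r ≤ (Aᶜ ∩ Bᶜ).card

/-- there is a family of `m` sets -/
def Fam (r n m : ℕ) : Prop := ∃ A : Fin m → Finset (Fin n), ∀ i j, i ≠ j → QI r (A i) (A j)

/-- the bound for families with large differences -/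
lemma diff_bound {n : ℕ} (r : ℕ) (hr : 1 ≤ r) (𝒢 : Finset (Finset (Fin n)))
    (hw : ∀ X ∈ 𝒢, r - 1 ≤ X.card)
    (h : ∀ X ∈ 𝒢, ∀ Y ∈ 𝒢, X ≠ Y → r ≤ (X \ Y).card) :
    𝒢.card * (n + r - 1).choose (r - 1) ≤ (n + r - 1).choose ((n + r - 1) / 2) := by
  classical
  obtain ⟨s, rfl⟩ : ∃ s, r = s + 1 := ⟨r - 1, by omega⟩
  simp only [Nat.add_sub_cancel] at hw ⊢
  rw [show n + (s + 1) - 1 = n + s by omega]
  have key : ∀ X ∈ 𝒢, ∀ Y ∈ 𝒢, X ≠ Y → ∀ B ∈ X.powersetCard (X.card - s), ¬ B ⊆ Y := by
    intro X hX Y hY hXY B hB hBY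
    obtain ⟨hBX, hBc⟩ := mem_powersetCard.1 hB
    have h1 := h X hX Y hY hXY
    have h2 : B.card ≤ (X ∩ Y).card := card_le_card (subset_inter hBX hBY)
    have h3 := card_sdiff_add_card_inter X Y
    omega
  set ℬ := 𝒢.biUnion (fun X => X.powersetCard (X.card - s)) with hℬ
  have hanti : IsAntichain (· ⊆ ·) (SetLike.coe ℬ) := by
    intro B hB B' hB' hne hsub
    obtain ⟨X, hX, hBX⟩ := mem_biUnion.1 (mem_coe.1 hB)
    obtain ⟨Y, hY, hBY⟩ := mem_biUnion.1 (mem_coe.1 hB')
    by_cases hXY : X = Y
    · subst hXY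
      have h1 := (mem_powersetCard.1 hBX).2
      have h2 := (mem_powersetCard.1 hBY).2
      exact hne (eq_of_subset_of_card_le hsub (by rw [h1, h2]))
    · exact key X hX Y hY hXY B hBX (hsub.trans (mem_powersetCard.1 hBY).1)
  have hlym := lubell_yamamoto_meshalkin_inequality_sum_inv_choose (𝕜 := ℚ) hanti
  rw [hℬ, sum_biUnion, Fintype.card_fin] at hlym
  · have h1 : ∀ X ∈ 𝒢, ((n + s).choose s : ℚ) / (n + s).choose ((n + s) / 2) ≤
        ∑ B ∈ X.powersetCard (X.card - s), ((n.choose B.card : ℕ) : ℚ)⁻¹ := by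
      intro X hX
      have hwX := hw X hX
      have hXn : X.card ≤ n := by
        have := card_le_univ X
        rwa [Fintype.card_fin] at this
      rw [sum_congr rfl (g := fun _ => ((n.choose (X.card - s) : ℕ) : ℚ)⁻¹) fun B hB => by
        rw [(mem_powersetCard.1 hB).2], sum_const, card_powersetCard, nsmul_eq_mul,
        Nat.choose_symm hwX, ← div_eq_mul_inv]
      have h2 := Nat.choose_mul (n := n + s) (k := X.card) (s := s) hwX
      rw [Nat.add_sub_cancel] at h2
      have h3 : ((n + s).choose X.card : ℚ) * X.card.choose s = (n + s).choose s * n.choose (X.card - s) := by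
        exact_mod_cast h2
      have h4 : (0 : ℚ) < (n + s).choose X.card := by
        exact_mod_cast Nat.choose_pos (by omega)
      have h5 : (0 : ℚ) < n.choose (X.card - s) := by
        exact_mod_cast Nat.choose_pos (by omega)
      have h6 : ((n + s).choose X.card : ℚ) ≤ (n + s).choose ((n + s) / 2) := by
        exact_mod_cast Nat.choose_le_middle _ _
      have h7 : (X.card.choose s : ℚ) / n.choose (X.card - s) = (n + s).choose s / (n + s).choose X.card := by
        rw [div_eq_div_iff h5.ne' h4.ne']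
        linarith
      rw [h7]
      exact div_le_div_of_nonneg_left (Nat.cast_nonneg _) h4 h6
    have h2 := (sum_le_sum h1).trans hlym
    rw [sum_const, nsmul_eq_mul, ← mul_div_assoc, div_le_one (by
      exact_mod_cast Nat.choose_pos (Nat.div_le_self _ _))] at h2
    exact_mod_cast h2
  · intro X hX Y hY hXY
    change Disjoint (X.powersetCard (X.card - s)) (Y.powersetCard (Y.card - s))
    rw [disjoint_left]
    intro B hB hB'
    exact key X hX Y hY hXY B hB (mem_powersetCard.1 hB').1

/-- the upper bound -/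
theorem upper {r n m : ℕ} (hr : 1 ≤ r) (hm : 2 ≤ m) (h : Fam r n m) :
    2 * m * (n + r - 1).choose (r - 1) ≤ (n + r - 1).choose ((n + r - 1) / 2) := by
  classical
  obtain ⟨A, hA⟩ := h
  have hother : ∀ i : Fin m, ∃ j, i ≠ j := by
    intro i
    have : Nontrivial (Fin m) := Fin.nontrivial_iff_two_le.2 hm
    obtain ⟨j, hj⟩ := exists_ne i
    exact ⟨j, hj.symm⟩
  have hbig : ∀ i, r ≤ (A i).card ∧ r ≤ (A i)ᶜ.card := by
    intro i
    obtain ⟨j, hj⟩ := hother i
    obtain ⟨h1, -, h3, -⟩ := hA i j hj
    exact ⟨h1.trans (card_le_card inter_subset_left), h3.trans (card_le_card inter_subset_left)⟩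
  set f : Fin m × Bool → Finset (Fin n) := fun x => if x.2 then A x.1 else (A x.1)ᶜ with hf
  have hdiff : ∀ x y, x ≠ y → r ≤ (f x \ f y).card := by
    rintro ⟨i, b⟩ ⟨j, c⟩ hne
    by_cases hij : i = j
    · subst hij
      have hbc : b ≠ c := fun h => hne (by rw [h])
      cases b <;> cases c
      · exact absurd rfl hbc
      · simp only [hf, Bool.false_eq_true, if_false, if_true, sdiff_eq_inter_compl, inter_self]
        exact (hbig i).2
      · simp only [hf, Bool.false_eq_true, if_false, if_true, sdiff_eq_inter_compl, compl_compl, inter_self]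
        exact (hbig i).1
      · exact absurd rfl hbc
    · obtain ⟨h1, h2, h3, h4⟩ := hA i j hij
      cases b <;> cases c
      · simp only [hf, Bool.false_eq_true, if_false, sdiff_eq_inter_compl, compl_compl]
        exact h3
      · simp only [hf, Bool.false_eq_true, if_false, if_true, sdiff_eq_inter_compl]
        exact h4
      · simp only [hf, Bool.false_eq_true, if_false, if_true, sdiff_eq_inter_compl, compl_compl]
        exact h1
      · simp only [hf, if_true, sdiff_eq_inter_compl]
        exact h2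
  have hinj : Function.Injective f := by
    intro x y hxy
    by_contra hne
    have := hdiff x y hne
    rw [hxy, sdiff_self, Finset.bot_eq_empty, card_empty] at this
    omega
  have h1 := diff_bound r hr (univ.image f) (by
    intro X hX
    obtain ⟨⟨i, b⟩, _, rfl⟩ := mem_image.1 hX
    cases b
    · simp only [hf, Bool.false_eq_true, if_false]
      have := (hbig i).2
      omega
    · simp only [hf, if_true]
      have := (hbig i).1
      omega) (by
    intro X hX Y hY hXY
    obtain ⟨x, _, rfl⟩ := mem_image.1 hX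
    obtain ⟨y, _, rfl⟩ := mem_image.1 hY
    exact hdiff x y fun h => hXY (by rw [h]))
  rw [card_image_of_injective _ hinj, card_univ, Fintype.card_prod, Fintype.card_fin, Fintype.card_bool] at h1
  rwa [mul_comm 2 m]

end Pool.Agent.K9h60.QI
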