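import Pool.Agent.K9h60.QI.Near

/-!
# Families with `r`-fold qualitatively independent pairs: ground sets slightly larger than `4 r` (helper60)
-/

set_option autoImplicit false

open Finset

namespace Pool.Agent.K9h60.QI

lemma welch {n : ℕ} {ι : Type} [Fintype ι] [DecidableEq ι] (w : ι → Fin n → ℤ) (t : ℤ)
    (h1 : ∀ i x, w i x * w i x = 1) (ho : ∀ i j, i ≠ j → (∑ x, w i x * w j x) ^ 2 ≤ t ^ 2) :
    (n : ℤ) * (Fintype.card ι) ^ 2 ≤ (Fintype.card ι) ^ 2 * t ^ 2 + Fintype.card ι * (n ^ 2 - t ^ 2) := by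
  have hup : ∑ i, ∑ j, (∑ x, w i x * w j x) ^ 2 ≤
      (Fintype.card ι : ℤ) ^ 2 * t ^ 2 + Fintype.card ι * ((n : ℤ) ^ 2 - t ^ 2) := by
    have h2 : ∀ i j, (∑ x, w i x * w j x) ^ 2 ≤ t ^ 2 + (if i = j then (n : ℤ) ^ 2 - t ^ 2 else 0) := by
      intro i j
      by_cases hij : i = j
      · subst hij
        rw [if_pos rfl, sum_congr rfl fun x _ => h1 i x, sum_const, card_univ, Fintype.card_fin, nsmul_eq_mul]
        linarith
      · rw [if_neg hij, add_zero]
        exact ho i j hij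
    refine (sum_le_sum fun i _ => sum_le_sum fun j _ => h2 i j).trans (le_of_eq ?_)
    simp only [sum_add_distrib, sum_const, card_univ, nsmul_eq_mul, sum_ite_eq, mem_univ, if_true]
    ring
  have hlow : (n : ℤ) * (Fintype.card ι) ^ 2 ≤ ∑ i, ∑ j, (∑ x, w i x * w j x) ^ 2 := by
    have h2 : ∑ i, ∑ j, (∑ x, w i x * w j x) ^ 2 = ∑ x, ∑ y, (∑ i, w i x * w i y) ^ 2 := by
      have e1 : ∀ i j, (∑ x, w i x * w j x) ^ 2 = ∑ x, ∑ y, (w i x * w i y) * (w j x * w j y) := by
        intro i j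
        rw [sq, sum_mul_sum]
        apply sum_congr rfl
        intro x _
        apply sum_congr rfl
        intro y _
        ring
      have e2 : ∀ x y, (∑ i, w i x * w i y) ^ 2 = ∑ i, ∑ j, (w i x * w i y) * (w j x * w j y) := by
        intro x y
        rw [sq, sum_mul_sum]
      simp only [e1, e2]
      calc ∑ i, ∑ j, ∑ x, ∑ y, (w i x * w i y) * (w j x * w j y)
          = ∑ i, ∑ x, ∑ j, ∑ y, (w i x * w i y) * (w j x * w j y) :=
            sum_congr rfl fun i _ => sum_comm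
        _ = ∑ x, ∑ i, ∑ j, ∑ y, (w i x * w i y) * (w j x * w j y) := sum_comm
        _ = ∑ x, ∑ i, ∑ y, ∑ j, (w i x * w i y) * (w j x * w j y) :=
            sum_congr rfl fun x _ => sum_congr rfl fun i _ => sum_comm
        _ = ∑ x, ∑ y, ∑ i, ∑ j, (w i x * w i y) * (w j x * w j y) :=
            sum_congr rfl fun x _ => sum_comm
    rw [h2]
    calc (n : ℤ) * (Fintype.card ι) ^ 2 = ∑ x : Fin n, (∑ i, w i x * w i x) ^ 2 := by
          have : ∀ x : Fin n, (∑ i, w i x * w i x) ^ 2 = (Fintype.card ι : ℤ) ^ 2 := by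
            intro x
            rw [sum_congr rfl fun i _ => h1 i x, sum_const, card_univ, nsmul_eq_mul, mul_one]
          rw [sum_congr rfl fun x _ => this x, sum_const, card_univ, Fintype.card_fin, nsmul_eq_mul]
      _ ≤ ∑ x, ∑ y, (∑ i, w i x * w i y) ^ 2 :=
          sum_le_sum fun x _ => single_le_sum (f := fun y => (∑ i, w i x * w i y) ^ 2)
            (fun y _ => sq_nonneg _) (mem_univ x)
  exact hlow.trans hup

/-- ground sets of size `4 r + t` -/
theorem near_t {r t m : ℕ} (hm : 2 ≤ m) (h : Fam r (4 * r + t) m) :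
    ((m : ℤ) + 1) * ((4 * r + t) - t ^ 2) ≤ (4 * r + t) ^ 2 - t ^ 2 := by
  obtain ⟨A, hA⟩ := h
  have hb := big hm hA
  let C : Option (Fin m) → Finset (Fin (4 * r + t)) := fun o => o.elim univ A
  have hsq : ∀ z : ℤ, -(t : ℤ) ≤ z → z ≤ t → z ^ 2 ≤ (t : ℤ) ^ 2 := by
    intro z h1 h2
    exact sq_le_sq' h1 h2
  have hC : ∀ i j, i ≠ j → (∑ x, sg (C i) x * sg (C j) x) ^ 2 ≤ (t : ℤ) ^ 2 := by
    have key : ∀ i, (∑ x, sg (univ : Finset (Fin (4 * r + t))) x * sg (A i) x) ^ 2 ≤ (t : ℤ) ^ 2 := by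
      intro i
      have := hb i
      have := cells (A i) (A i)
      rw [sg_mul, univ_inter, compl_univ, empty_inter, univ_inter, empty_inter, card_empty]
      apply hsq <;> omega
    rintro (_ | i) (_ | j) hij
    · exact absurd rfl hij
    · exact key j
    · rw [sum_congr rfl fun x _ => mul_comm _ _]
      exact key i
    · change (∑ x, sg (A i) x * sg (A j) x) ^ 2 ≤ (t : ℤ) ^ 2
      obtain ⟨h1, h2, h3, h4⟩ := hA i j fun h => hij (by rw [h])
      have := cells (A i) (A j)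
      rw [sg_mul]
      apply hsq <;> omega
  have h1 := welch (fun i x => sg (C i) x) t (fun i x => by
    unfold sg
    split_ifs <;> rfl) hC
  rw [Fintype.card_option, Fintype.card_fin] at h1
  push_cast at h1
  have h2 : (0 : ℤ) < (m : ℤ) + 1 := by positivity
  have h3 : ((m : ℤ) + 1) * (((m : ℤ) + 1) * ((4 * r + t) - t ^ 2)) ≤
      ((m : ℤ) + 1) * ((4 * r + t) ^ 2 - t ^ 2) := by
    linarith
  exact le_of_mul_le_mul_left h3 h2

end Pool.Agent.K9h60.QI
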